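import Pool.Agent.Lib.DM.H3.Spec
import Pool.Agent.Lib.DI.H3.Cng

/-!
# Theorem DM, part H, module `Cng`: the congruence for `ε_0` (author helper9)
-/

set_option autoImplicit false

open scoped Pointwise nonZeroDivisors

noncomputable section

namespace Pool.Agent.DM.H3

open Pool.Agent.MuZ Pool.Agent.FW NumberField IsDedekindDomain
open Pool.Agent.DI (io ofC io_inj exists_io io_ofC ofC_io VP MP UP TP ex)
open Pool.Agent.DN
open Pool.Agent.DT (kap cbr kp S_pKa S_pTH S_pKap S_pLeg Thnp)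
open Pool.Agent.DT.H3 (IsLg lg Jc S_hCb S_hZt S_hAlR)
open Pool.Agent.DS.H3 (rd pL S_hLa S_hNmK S_hTra pri_dvd)

theorem tCng (h1 : S_O6) (h2 : DS.S_D3) (h3 : S_D6) (h4 : S_hCb) (h5 : S_hDg) (h6 : S_hLat)
    (h7 : S_hUni) : S_hCng := by
  intro k t _ f N m T b l la r D P hP hla
  have hPp : P.IsPrime := hP.1
  obtain ⟨-, -, -, -, hex⟩ := h1 k t
  obtain ⟨-, -, -, -, hcard, hJ, -⟩ := h4 l D.hl D.hl3
  obtain ⟨hDeg, hAbv, -, -, -, hQ⟩ := h5 k t f l la r D.toDatL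
  obtain ⟨-, -, -, -, -, hb⟩ := h6 k t f l la r D.toDatL
  obtain ⟨hLam, -⟩ := hb b D.hb0 D.hlb
  obtain ⟨hG, hU⟩ := h7 k t f N m T b l la r D
  obtain ⟨hlP, hP3, hP2, -⟩ := hQ P hP hla
  have hlM : MP P ((l : ℕ) : Om) := (Pool.Agent.DI.MP.nat_iff l).2 hlP
  have hPm : ¬ Abv P m := by
    intro h
    obtain ⟨μ, hμ, -, c, hc⟩ := hex l m D.hl.pos D.hm.ne D.hlm
    have e : (1 : Om) = toO μ - ((l : ℕ) : Om) * toO c := by
      have e1 : μ = 1 + (l : OO k t) * c := by rw [← hc]; ring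
      rw [e1, toO_add, toO_mul, toO_one, toO_nat]
      ring
    apply Pool.Agent.DI.MP.one_not (P := P)
    rw [e]
    exact (h μ hμ).sub (Pool.Agent.DI.MP.mul_right hlM (toO_VP c))
  obtain ⟨-, -, hUt⟩ := hU P hP
  have hGQ := D.hG P hP hla
  have hj : ∀ h ∈ T, ∀ j ∈ Jc l 0,
      MP P (Theta m b (Tz f N h + pL la j) - Theta m b (Tz f N h)) := by
    intro h hh j hj
    obtain ⟨hj0, hjl, -⟩ := hJ 0 j hj
    have hz := (h2 k t (sp la) l hDeg D.cop30 P hGQ ((hAbv P hP).1 hla) b (g15_of30 D.g30)).1 _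
      (hLam j hj0 hjl).1
    have hg := (hG h hh).1
    exact (h3 k t m b D.hm.ne D.g30 D.m30 P hGQ hP2 hPm _ hg.1 (hg.2 P hP)).1 _ hz
  unfold epq
  have hu : uN f N m T b = ∏ h ∈ T, Theta m b (Tz f N h) := rfl
  rw [hu, ← Finset.prod_pow]
  refine Pool.Agent.DI.H3.CngAux.prod_congr T _ _ (fun h hh => (hUt h hh).1.1.pow _) fun h hh => ?_
  have e : Theta m b (Tz f N h) ^ ((l - 1) / 3) = ∏ _j ∈ Jc l 0, Theta m b (Tz f N h) := by
    rw [Finset.prod_const, hcard]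
  rw [e]
  exact Pool.Agent.DI.H3.CngAux.prod_congr (Jc l 0) _ _ (fun _ _ => (hUt h hh).1.1) fun j hj' =>
    hj h hh j hj'

end Pool.Agent.DM.H3
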