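import Pool.Agent.Lib.DM.H3.Spec
import Pool.Agent.Lib.DS.H3.Un
import Pool.Agent.Lib.DI.H3.Prm

/-!
# Theorem DM, part H: permutation of the set `T` of representatives (author helper9)
-/

set_option autoImplicit false

open scoped Pointwise nonZeroDivisors

noncomputable section

namespace Pool.Agent.DM.H3

open Pool.Agent.MuZ Pool.Agent.FW NumberField IsDedekindDomain
open Pool.Agent.DI (io ofC io_inj exists_io io_ofC ofC_io VP MP UP TP ex)
open Pool.Agent.DN
open Pool.Agent.DT (kap cbr kp S_pKa S_pTH S_pKap S_pLeg Thnp)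
open Pool.Agent.DT.H3 (IsLg lg Jc S_hCb S_hZt S_hAlR)
open Pool.Agent.DS.H3 (rd pL S_hLa S_hNmK S_hTra pri_dvd)

variable {k t : ℕ}

theorem cop_isCoprime {a : OO k t} {n : ℕ} (ha : Cop a n) : IsCoprime a (n : OO k t) := by
  obtain ⟨b, -, c, hc⟩ := cop_inv ha
  refine ⟨b, -c, ?_⟩
  linear_combination hc

theorem tTP (h1 : S_hHN) : S_hTP := by
  intro k t _ f N T a G hf hN hT ha hev hper
  obtain ⟨_, hmul, _, hcop⟩ := h1 k t f N hf hN
  have hca : IsCoprime a ((f * 3 ^ N : ℕ) : OO k t) := cop_isCoprime (hcop a ha).2.2.1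
  refine Pool.Agent.DI.H3.tPrm (OO k t) Om T
    (fun x y => ∃ e : OO k t, Nm e = 1 ∧ ((f * 3 ^ N : ℕ) : OO k t) ∣ x - e * y)
    (fun h => a * h) G ?_ ?_ ?_ ?_ ?_
  · rintro x y ⟨e, he, h⟩
    refine ⟨cjO e, by rw [Nm_cjO, he], ?_⟩
    have h2 := Dvd.dvd.mul_left h (-cjO e)
    have e1 : -cjO e * (x - e * y) = y - cjO e * x := by
      linear_combination y * DS.H3.unit_cj' he
    rwa [e1] at h2
  · rintro x y z ⟨e, he, hxy⟩ ⟨e', he', hyz⟩
    refine ⟨e * e', by rw [Nm_mul, he, he', one_mul], ?_⟩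
    have h2 := dvd_add hxy (Dvd.dvd.mul_left hyz e)
    have e1 : x - e * y + e * (y - e' * z) = x - e * e' * z := by ring
    rwa [e1] at h2
  · intro h hh
    obtain ⟨h', hh', hs⟩ := hT.ex (a * h) (hmul a h ha (hT.mem h hh))
    exact ⟨h', hh', hs⟩
  · rintro h hh h' hh' ⟨e, he, hs⟩
    refine hT.uni h hh h' hh' e he ?_
    have e1 : a * h - e * (a * h') = a * (h - e * h') := by ring
    rw [e1] at hs
    exact hca.symm.dvd_of_dvd_mul_left hs
  · rintro x y ⟨e, he, z, hz⟩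
    have e1 : x = e * y + ((f * 3 ^ N : ℕ) : OO k t) * z := by rw [← hz]; ring
    rw [e1, hper (e * y) z]
    exact hev e y he

end Pool.Agent.DM.H3
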