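import Pool.Agent.Lib.DM.H3.Eps
import Pool.Agent.Lib.DM.H3.TP
import Pool.Agent.Lib.DI.H3.Prm

/-!
# Theorem DM, part H, module `Cst`: the constant of the distribution relation for `(λ)` (author helper9)
-/

set_option autoImplicit false

open scoped Pointwise nonZeroDivisors

noncomputable section

namespace Pool.Agent.DM.H3

open Pool.Agent.MuZ Pool.Agent.FW NumberField IsDedekindDomain
open Pool.Agent.DI (io ofC io_inj exists_io io_ofC ofC_io VP MP UP TP ex)
open Pool.Agent.DN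
open Pool.Agent.DT (kap cbr kp S_pKa S_pTH S_pKap S_pLeg Thnp)
open Pool.Agent.DT.H3 (IsLg lg Jc S_hCb S_hZt S_hAlR)
open Pool.Agent.DS.H3 (rd pL S_hLa S_hNmK S_hTra pri_dvd)

open GdAux EpsAux in
theorem tCst (b14 : DN.S_B14) (h0 : S_O2) (h1 : S_O6) (h2 : S_D7) (h3 : S_D8) (h4 : S_E10) (h6 : S_hRdm)
    (h7 : S_hHN) (h8 : S_hDg) (h9 : S_hLat) (h11 : S_hFix) (h12 : S_hUni) : S_hCst := by
  intro k t _ f N m T b l la r hD
  have hlp := hD.hl
  have : Fact l.Prime := ⟨hlp⟩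
  have : NeZero l := ⟨hlp.ne_zero⟩
  have hf := hD.hf
  have hN := hD.N1
  have hm0 : m ≠ ⊥ := hD.hm.ne
  have hb0 : b ≠ ⊥ := hD.hb0
  obtain ⟨-, -, -, -, -, m6, -⟩ := h0 k t
  have hNm : 0 < NI m := Nat.pos_of_ne_zero fun h => hm0 ((m6 m).1 h)
  obtain ⟨-, -, -, -, -, -, r7, -, hlal, r10⟩ := h6 k t f l la r hD.toDatL
  obtain ⟨n1, n2, -, n4⟩ := h7 k t f N hf hN
  obtain ⟨g1, g2, g3, -, -, g6⟩ := h8 k t f l la r hD.toDatL
  obtain ⟨q1, q2, -, -, q5, q6⟩ := h9 k t f l la r hD.toDatL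
  obtain ⟨-, -, x3, -, -, x6, -⟩ := h11 k t f N hf hN
  obtain ⟨u3, u4⟩ := h12 k t f N m T b l la r hD
  obtain ⟨-, -, -, d4, -⟩ := h3 k t m b hm0 hb0 hD.m30
  have hla0 : la ≠ 0 := (n4 la hD.hHN).1
  have hspla : sp la ≠ ⊥ := fun h => hla0 (Ideal.span_singleton_eq_bot.1 h)
  have hsup : sp la ⊔ m = ⊤ := by
    rw [sup_comm, eq_top_iff, ← hD.hlm]
    exact sup_le_sup_left (g3 l dvd_rfl) m
  have hla30 : PrI (sp la) 30 := by
    refine ((h1 k t).2.2.2.1 30 la (by norm_num)).2 ?_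
    have h13 : l.Coprime 30 := hD.toDatL.cop30
    unfold Cop
    rw [hD.hla]
    exact_mod_cast (Nat.isCoprime_iff_coprime.2 h13)
  obtain ⟨C, hC0, hC1, hC2⟩ := (h2 k t m b hm0 hD.g30 hD.m30).1 (sp la) hspla hla30 hsup
  obtain ⟨-, hsys⟩ := q6 b hb0 hD.hlb
  have hTt : ∀ x : OO k t, Tor k t (Tz f N x) := fun x => tor_div (fpos hf N) x
  -- the relation
  have hrel : ∀ h ∈ T, ∏ j ∈ Finset.range l, Theta m b (Tz f N h + pL la j) =
      C * Theta m b (Tz f N (la * h)) := by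
    intro h hh
    have e1 := hC1 _ hsys (Tz f N h) (hTt h) (u3 h hh).2.2.2
    rw [Finset.prod_image q5, hom h3 hm0 hb0 hD.m30 hla0, tz_mul] at e1
    exact e1
  obtain ⟨h0, hh0, -, -, -⟩ := hD.hT.ex 1 n1
  refine ⟨C, hC0, hrel, ?_, ?_, ?_⟩
  · intro Q hQ
    have : Q.IsPrime := hQ.1
    obtain ⟨-, -, u5⟩ := u4 Q hQ
    obtain ⟨-, u6, u7⟩ := u5 h0 hh0
    have e1 := hrel h0 hh0
    have e2 : C = (∏ j ∈ Finset.range l, Theta m b (Tz f N h0 + pL la j)) /
        Theta m b (Tz f N (la * h0)) := by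
      rw [e1]
      field_simp [u6.ne_zero]
    rw [e2]
    exact (DI.UP.prod _ _ fun j _ => u7 j).div u6
  · intro τ hτ
    obtain ⟨a, haN, ha⟩ := x6 τ hτ (l * NI m) (Nat.mul_pos hlp.pos hNm)
    have ha0 : a ≠ 0 := (n4 a haN).1
    have hal : Cop a l := by
      refine ((h1 k t).2.2.2.1 l a hlp.pos).1 (pri_dvd ?_ ha.cop)
      exact ((Dvd.intro _ rfl : l ∣ l * NI m).mul_left _).mul_left _
    have hxa : rd r a ≠ 0 := r7 a hal
    have hact : ∀ (x : OO k t) (j : ℕ), τ (Theta m b (Tz f N x + pL la j)) =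
        Theta m b (toC a * (Tz f N x + pL la j)) := fun x j =>
      act h4 h3 hf hN hm0 hD.g30 hD.m30 hlp.ne_zero hNm ha0 ha (lvl f N hf q2 hlp.ne_zero b _ x j)
    have hp0 : pL la 0 = 0 := by
      unfold pL
      simp
    have hact0 : ∀ x : OO k t, τ (Theta m b (Tz f N x)) = Theta m b (toC a * Tz f N x) := by
      intro x
      have := hact x 0
      rwa [hp0, add_zero] at this
    have hperm : ∀ x : ZMod l, x ≠ 0 → ∀ G : ℕ → Om,
        ∏ j ∈ Finset.range l, G ((x * (j : ZMod l)).val) = ∏ j ∈ Finset.range l, G j := by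
      intro x hx G
      refine DI.H3.tPrm ℕ Om (Finset.range l) (fun i j => i = j) (fun j => (x * (j : ZMod l)).val) G
        (fun _ _ h => h.symm) (fun _ _ _ h h' => h.trans h') ?_ ?_ (fun _ _ h => by rw [h])
      · intro s _
        exact ⟨(x * (s : ZMod l)).val, Finset.mem_range.2 (ZMod.val_lt _), rfl⟩
      · intro s hs s' hs' h
        have h13 : x * (s : ZMod l) = x * (s' : ZMod l) := ZMod.val_injective l h
        have h14 : (s : ZMod l) = s' := mul_left_cancel₀ hx h13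
        have h15 := (ZMod.natCast_eq_natCast_iff' s s' l).1 h14
        rwa [Nat.mod_eq_of_lt (Finset.mem_range.1 hs), Nat.mod_eq_of_lt (Finset.mem_range.1 hs')]
          at h15
    obtain ⟨h', hh', e0, he0, s, hs⟩ := hD.hT.ex _ (n2 a h0 haN (hD.hT.mem h0 hh0))
    have hah' : a * h0 = e0 * h' + ((f * 3 ^ N : ℕ) : OO k t) * s := by rw [← hs]; ring
    have hah : Tz f N (a * h0) = Tz f N (e0 * h') + toC s := by
      rw [hah', tz_add f N hf]
    have e1 := congrArg τ (hrel h0 hh0)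
    rw [map_prod, map_mul, hact0] at e1
    have e2 : ∀ j ∈ Finset.range l, τ (Theta m b (Tz f N h0 + pL la j)) =
        Theta m b (Tz f N (e0 * h') + pL la ((rd r a * (j : ZMod l)).val)) := by
      intro j _
      obtain ⟨x, hx⟩ := q1 a j ((rd r a * (j : ZMod l)).val) (ZMod.natCast_zmod_val _)
      rw [hact, mul_add, hx, tz_mul, hah]
      have e3 : Tz f N (e0 * h') + toC s + (pL la ((rd r a * (j : ZMod l)).val) + toC x) =
          Tz f N (e0 * h') + pL la ((rd r a * (j : ZMod l)).val) + toC (s + x) := by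
        rw [toC_add]
        ring
      rw [e3, per h3 hm0 hb0 hD.m30]
    have e6 : ∏ j ∈ Finset.range l, Theta m b (Tz f N (e0 * h') + pL la j) =
        ∏ j ∈ Finset.range l, Theta m b (Tz f N h' + pL la j) := by
      rw [← hperm (rd r (cjO e0)) (r10 (cjO e0) (by rw [Nm_cjO, he0])).1
        (fun j => Theta m b (Tz f N h' + pL la j))]
      exact Finset.prod_congr rfl fun j _ => theta_tw h3 f N hm0 hb0 hD.m30 q1 he0 h' j
    rw [Finset.prod_congr rfl e2,
      hperm (rd r a) hxa (fun j => Theta m b (Tz f N (e0 * h') + pL la j)), e6, hrel h' hh'] at e1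
    have e4 : toC a * Tz f N (la * h0) = toC e0 * Tz f N (la * h') + toC (la * s) := by
      have e5 : a * (la * h0) = e0 * (la * h') + ((f * 3 ^ N : ℕ) : OO k t) * (la * s) := by
        linear_combination la * hah'
      rw [tz_mul, e5, tz_add f N hf, tz_mul]
    rw [e4, per h3 hm0 hb0 hD.m30, theta_unit h3 hm0 hb0 hD.m30 he0] at e1
    have hne : Theta m b (Tz f N (la * h')) ≠ 0 := by
      have hP0 : ∀ z : ℂ, Tor k t z → z ∉ Lam (m * b) → Theta m b z ≠ 0 := by
        intro z hz hzm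
        have hS : IsHalf m b (DN.hs m b) :=
          (b14 k t m b hm0 hb0 (pri_dvd (by norm_num) hD.m30)).1
        exact ((h3 k t m b hm0 hb0 hD.m30).2.2.2.2 hD.g30 _ hS z hz hzm).1
      refine hP0 _ (hTt _) (fun h => (u3 h' hh').2.2.2 ?_)
      rw [mul_assoc, lam_sp, tz_mul]
      exact h
    exact (mul_right_cancel₀ hne e1).symm
  · intro P hP hPla
    exact hC2 l P g1 hP ((g2 P hP).1 hPla)

end Pool.Agent.DM.H3
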