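import Pool.Agent.Lib.DM.H3.Spec

/-!
# Theorem DM, part H, module `Dg`: the prime ideal `(λ)` (author helper9)
-/

set_option autoImplicit false

open scoped Pointwise nonZeroDivisors

noncomputable section

namespace Pool.Agent.DM.H3

open Pool.Agent.MuZ Pool.Agent.FW NumberField IsDedekindDomain
open Pool.Agent.DI (io ofC io_inj exists_io io_ofC ofC_io VP MP UP TP ex)
open Pool.Agent.DN
open Pool.Agent.DT (kap cbr kp S_pKa S_pTH S_pKap S_pLeg Thnp)
open Pool.Agent.DT.H3 (IsLg lg Jc S_hCb S_hZt S_hAlR)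
open Pool.Agent.DS.H3 (rd pL S_hLa S_hNmK S_hTra pri_dvd)

theorem tDg (h1 : S_O2) (h2 : S_hRdm) : S_hDg := by
  intro k t _ f l la r hd
  obtain ⟨r1, r2, r3, r4, r5, r6, r7, r8, r9, -⟩ := h2 k t f l la r hd
  obtain ⟨-, -, n3, n4, -⟩ := h1 k t
  have hl : l.Prime := hd.hl
  have hl3 : l % 3 = 1 := hd.hl3
  have hfact : Fact l.Prime := ⟨hl⟩
  have hla0 : la ≠ 0 := by
    intro h
    have h0 := (n3 la).2 h
    rw [hd.hla] at h0
    exact hl.ne_zero (by exact_mod_cast h0)
  have hmem : ∀ x : OO k t, x ∈ sp la ↔ rd r x = 0 := fun x => by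
    rw [hd.hker x]
    exact Ideal.mem_span_singleton
  refine ⟨⟨?_, ?_, hl, ?_⟩, ?_, ?_, ?_, ?_, ?_⟩
  · rw [Ideal.isPrime_iff]
    refine ⟨?_, ?_⟩
    · intro h
      have h3 : (1 : OO k t) ∈ sp la := by rw [h]; exact Submodule.mem_top
      rw [hmem, r6] at h3
      exact one_ne_zero h3
    · intro x y hxy
      rw [hmem, r1] at hxy
      rw [hmem, hmem]
      exact mul_eq_zero.1 hxy
  · intro h
    exact hla0 (Ideal.span_singleton_eq_bot.1 h)
  · have h3 := n4 la
    rw [hd.hla] at h3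
    exact_mod_cast h3
  · intro Q hQ
    have hP : Q.IsPrime := hQ.1
    constructor
    · intro h v hv
      obtain ⟨u, rfl⟩ := Ideal.mem_span_singleton.1 hv
      rw [toO_mul]
      exact DI.MP.mul_right h (toO_VP u)
    · intro h
      exact h la (Ideal.mem_span_singleton_self la)
  · intro M hM
    exact Ideal.span_singleton_le_span_singleton.2 (r9.trans (Nat.cast_dvd_cast hM))
  · intro h
    rw [hd.hla] at h
    have h4 : 2 ∣ l := by exact_mod_cast h
    exact hd.two ((Nat.prime_dvd_prime_iff_eq Nat.prime_two hl).1 h4).symm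
  · intro h
    rw [hd.hla] at h
    have h4 : 3 ∣ l := by exact_mod_cast h
    omega
  · intro Q hQ hla
    have hP : Q.IsPrime := hQ.1
    have h3 : MP Q ((l : ℕ) : Om) := by
      rw [← toO_nat (n := k) (t := t), ← r8, toO_mul]
      exact DI.MP.mul_right hla (toO_VP _)
    have h4 : (l : ZZ) ∈ Q := (DI.MP.nat_iff l).1 h3
    have key : ∀ M : ℕ, l.Coprime M → (M : ZZ) ∉ Q := by
      intro M hM hMQ
      apply hP.one_notMem
      obtain ⟨a, b, hab⟩ := (Nat.isCoprime_iff_coprime.2 hM : IsCoprime (l : ℤ) (M : ℤ))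
      have e : (1 : ZZ) = (a : ZZ) * (l : ZZ) + (b : ZZ) * (M : ZZ) := by
        have := congrArg (fun z : ℤ => (z : ZZ)) hab
        push_cast at this
        exact this.symm
      rw [e]
      exact Q.add_mem (Q.mul_mem_left _ h4) (Q.mul_mem_left _ hMQ)
    refine ⟨h4, ?_, ?_, key⟩
    · intro h
      refine key 3 ((Nat.coprime_primes hl Nat.prime_three).2 hd.three) ?_
      exact (DI.MP.nat_iff 3).1 (by exact_mod_cast h)
    · intro h
      refine key 2 ((Nat.coprime_primes hl Nat.prime_two).2 hd.two) ?_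
      exact (DI.MP.nat_iff 2).1 (by exact_mod_cast h)

end Pool.Agent.DM.H3
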