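import Pool.Agent.Lib.DM.H3.Gd
import Pool.Agent.Lib.DS.H3.Un

/-!
# Theorem DM, part H, module `Eps`: Galois action on `ε_i` (author helper9)
-/

set_option autoImplicit false

open scoped Pointwise nonZeroDivisors

noncomputable section

namespace Pool.Agent.DM.H3

open Pool.Agent.MuZ Pool.Agent.FW NumberField IsDedekindDomain
open Pool.Agent.DI (io ofC io_inj exists_io io_ofC ofC_io VP MP UP TP ex)
open Pool.Agent.DN
open Pool.Agent.DT (kap cbr kp S_pKa S_pTH S_pKap S_pLeg Thnp)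
open Pool.Agent.DT.H3 (IsLg lg Jc S_hCb S_hZt S_hAlR)
open Pool.Agent.DS.H3 (rd pL S_hLa S_hNmK S_hTra pri_dvd)

namespace EpsAux

open GdAux

variable {k t : ℕ}

theorem mT (f N : ℕ) (hf : Fok f) [SqN k t] (x : OO k t) : ((f * 3 ^ N : ℕ) : ℂ) * Tz f N x = toC x := by
  have hM0 : ((f * 3 ^ N : ℕ) : ℂ) ≠ 0 := by exact_mod_cast (fpos hf N).ne'
  unfold Tz
  field_simp

theorem tz_add (f N : ℕ) (hf : Fok f) [SqN k t] (x y : OO k t) :
    Tz f N (x + ((f * 3 ^ N : ℕ) : OO k t) * y) = Tz f N x + toC y := by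
  have hM0 : ((f * 3 ^ N : ℕ) : ℂ) ≠ 0 := by exact_mod_cast (fpos hf N).ne'
  unfold Tz
  rw [toC_add, toC_mul, toC_nat]
  field_simp

theorem tz_mul (f N : ℕ) [SqN k t] (a x : OO k t) : toC a * Tz f N x = Tz f N (a * x) := by
  unfold Tz
  rw [toC_mul, mul_div_assoc]

/-- The points `h/(f 3^N) + j/λ` are in the lattice of level `M = f 3^N (l NI m)`. -/
theorem lvl (f N : ℕ) (hf : Fok f) [SqN k t] {l : ℕ} {la : OO k t} (h5 : ∀ j : ℕ, pL la j =
    toC ((j : OO k t) * cjO la) / l) (hl : l ≠ 0) (b : Ideal (OO k t)) (c : ℕ) (x : OO k t) (j : ℕ) :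
    ((f * 3 ^ N * (l * c) : ℕ) : ℂ) * (Tz f N x + pL la j) ∈ Lam b := by
  have hl0 : (l : ℂ) ≠ 0 := by exact_mod_cast hl
  have e : ((f * 3 ^ N * (l * c) : ℕ) : ℂ) * (Tz f N x + pL la j) =
      toC (((l * c : ℕ) : OO k t) * x) +
        toC (((f * 3 ^ N * c : ℕ) : OO k t) * ((j : OO k t) * cjO la)) := by
    have e1 : ((f * 3 ^ N * (l * c) : ℕ) : ℂ) * (Tz f N x + pL la j) =
        ((l * c : ℕ) : ℂ) * (((f * 3 ^ N : ℕ) : ℂ) * Tz f N x) +
          ((f * 3 ^ N * c : ℕ) : ℂ) * ((l : ℂ) * pL la j) := by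
      push_cast
      ring
    have e2 : (l : ℂ) * pL la j = toC ((j : OO k t) * cjO la) := by
      rw [h5]
      field_simp
    rw [e1, mT f N hf, e2, toC_mul ((l * c : ℕ) : OO k t) x,
      toC_mul ((f * 3 ^ N * c : ℕ) : OO k t) ((j : OO k t) * cjO la), toC_nat, toC_nat]
  rw [e, ← toC_add]
  exact toC_mem b _

/-- `Theta` is periodic. -/
theorem per (h : S_D8) [SqN k t] {m b : Ideal (OO k t)} (hm : m ≠ ⊥) (hb : b ≠ ⊥) (hm30 : PrI m 30)
    (z : ℂ) (v : OO k t) : Theta m b (z + toC v) = Theta m b z := by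
  unfold Theta
  rw [((h k t m b hm hb hm30).2.1 z).2 _ (toC_mem b v)]

/-- Homogeneity. -/
theorem hom (h : S_D8) [SqN k t] {m b : Ideal (OO k t)} (hm : m ≠ ⊥) (hb : b ≠ ⊥) (hm30 : PrI m 30)
    {a : OO k t} (ha : a ≠ 0) (z : ℂ) : Theta m (sp a * b) z = Theta m b (toC a * z) := by
  unfold Theta
  rw [(h k t m b hm hb hm30).2.2.1 a z ha]

/-- `Theta` is invariant under the units. -/
theorem theta_unit (h : S_D8) [SqN k t] {m b : Ideal (OO k t)} (hm : m ≠ ⊥) (hb : b ≠ ⊥)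
    (hm30 : PrI m 30) {e : OO k t} (he : Nm e = 1) (z : ℂ) :
    Theta m b (toC e * z) = Theta m b z := by
  rw [← hom h hm hb hm30 (DS.H3.unit_ne he), DS.H3.unit_span he, Ideal.top_mul]

/-- The action of the units on the points `h/(f 3^N) + j/λ`. -/
theorem theta_tw (h : S_D8) [SqN k t] (f N : ℕ) {m b : Ideal (OO k t)} (hm : m ≠ ⊥)
    (hb : b ≠ ⊥) (hm30 : PrI m 30) {l : ℕ} [NeZero l] {la : OO k t} {r : ZMod l}
    (q1 : ∀ (a : OO k t) (j j' : ℕ), (j' : ZMod l) = rd r a * j →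
      ∃ x : OO k t, toC a * pL la j = pL la j' + toC x) {e : OO k t} (he : Nm e = 1) (x : OO k t)
    (j : ℕ) : Theta m b (Tz f N (e * x) + pL la j) =
      Theta m b (Tz f N x + pL la ((rd r (cjO e) * (j : ZMod l)).val)) := by
  obtain ⟨y, hy⟩ := q1 (cjO e) j ((rd r (cjO e) * (j : ZMod l)).val) (ZMod.natCast_zmod_val _)
  have e1 : Tz f N (e * x) + pL la j =
      toC e * (Tz f N x + pL la ((rd r (cjO e) * (j : ZMod l)).val) + toC y) := by
    rw [add_assoc, ← hy, mul_add, tz_mul, ← mul_assoc, ← toC_mul, DS.H3.unit_cj he, toC_one,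
      one_mul]
  rw [e1, theta_unit h hm hb hm30 he, per h hm hb hm30]

/-- The Galois action on the values of `Theta`. -/
theorem act (h2 : S_E10) (h3 : S_D8) [SqN k t] {f N : ℕ} (hf : Fok f) (hN : 1 ≤ N)
    {m b : Ideal (OO k t)} (hm : m ≠ ⊥) (hb : G30 b) (hm30 : PrI m 30) {l : ℕ} (hl : l ≠ 0)
    (hm0 : 0 < NI m) {τ : Gal(Om/ℚ)} {a : OO k t} (ha0 : a ≠ 0)
    (ha : Psi τ (f * 3 ^ N * (l * NI m)) (sp a)) {z : ℂ}
    (hz : ((f * 3 ^ N * (l * NI m) : ℕ) : ℂ) * z ∈ Lam b) :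
    τ (Theta m b z) = Theta m b (toC a * z) := by
  have hpos : 0 < f * 3 ^ N * (l * NI m) :=
    Nat.mul_pos (fpos hf N) (Nat.mul_pos (Nat.pos_of_ne_zero hl) hm0)
  obtain ⟨-, -, e10⟩ := h2 k t τ _ (sp a) hpos (d60' hf hN _) ha
  rw [(e10 m b hm hb hm30 ((Dvd.intro_left _ rfl : NI m ∣ l * NI m).mul_left _) z hz).2,
    hom h3 hm hb.ne hm30 ha0]

end EpsAux

open GdAux EpsAux in
theorem tEps (h0 : S_O2) (h1 : S_O6) (h2 : S_E10) (h3 : S_D8) (h4 : S_hCb) (h5 : S_hRdm)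
    (h6 : S_hHN) (h7 : S_hTP) (h9 : S_hLat) : S_hEps := by
  intro k t _ f N m T b l la r hD τ a ha haN i
  have hlp := hD.hl
  have : Fact l.Prime := ⟨hlp⟩
  have : NeZero l := ⟨hlp.ne_zero⟩
  have hf := hD.hf
  have hN := hD.N1
  have hm0 : m ≠ ⊥ := hD.hm.ne
  have hb0 : b ≠ ⊥ := hD.hb0
  obtain ⟨-, -, -, -, -, n6, -⟩ := h0 k t
  have hNm : 0 < NI m := Nat.pos_of_ne_zero fun h => hm0 ((n6 m).1 h)
  obtain ⟨-, -, -, -, -, -, r7, -, -, r10⟩ := h5 k t f l la r hD.toDatL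
  obtain ⟨-, -, -, n4⟩ := h6 k t f N hf hN
  obtain ⟨q1, q2, -, -, -, -⟩ := h9 k t f l la r hD.toDatL
  have ha0 : a ≠ 0 := (n4 a haN).1
  have hal : Cop a l := by
    refine ((h1 k t).2.2.2.1 l a hlp.pos).1 (pri_dvd ?_ ha.cop)
    exact ((Dvd.intro _ rfl : l ∣ l * NI m).mul_left _).mul_left _
  have hxa : rd r a ≠ 0 := r7 a hal
  have hact : ∀ (x : OO k t) (j : ℕ), τ (Theta m b (Tz f N x + pL la j)) =
      Theta m b (toC a * (Tz f N x + pL la j)) := fun x j =>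
    act h2 h3 hf hN hm0 hD.g30 hD.m30 hlp.ne_zero hNm ha0 ha (lvl f N hf q2 hlp.ne_zero b _ x j)
  obtain ⟨-, -, -, -, -, -, -, -, -, c10⟩ := h4 l hlp hD.hl3
  have hTP := h7 k t f N T a
    (fun x => ∏ j ∈ Jc l (i + lg l (rd r a)), Theta m b (Tz f N x + pL la j)) hf hN hD.hT
    haN (by
      intro e x he
      obtain ⟨he0, hel⟩ := r10 (cjO e) (by rw [Nm_cjO, he])
      have h11 := c10 (rd r (cjO e)) (fun j => Theta m b (Tz f N x + pL la j)) (i + lg l (rd r a)) he0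
      rw [hel, add_zero] at h11
      change ∏ j ∈ Jc l (i + lg l (rd r a)), Theta m b (Tz f N (e * x) + pL la j) =
        ∏ j ∈ Jc l (i + lg l (rd r a)), Theta m b (Tz f N x + pL la j)
      rw [← h11]
      exact Finset.prod_congr rfl fun j _ => theta_tw h3 f N hm0 hb0 hD.m30 q1 he x j) (by
      intro x y
      refine Finset.prod_congr rfl fun j _ => ?_
      rw [tz_add f N hf, add_right_comm, per h3 hm0 hb0 hD.m30])
  unfold epq
  rw [← hTP, map_prod]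
  refine Finset.prod_congr rfl fun h _ => ?_
  rw [map_prod, ← c10 (rd r a) (fun j => Theta m b (Tz f N (a * h) + pL la j)) i hxa]
  refine Finset.prod_congr rfl fun j _ => ?_
  obtain ⟨x, hx⟩ := q1 a j ((rd r a * (j : ZMod l)).val) (ZMod.natCast_zmod_val _)
  rw [hact, mul_add, hx, tz_mul, ← add_assoc, per h3 hm0 hb0 hD.m30]

end Pool.Agent.DM.H3
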