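import Pool.Agent.Lib.DM.H3.Spec

/-!
# Theorem DM, part H, module `Fix`: Galois theory of `F = Mn k t f N` (author helper9, text of `DT/H3/Fix.lean`)
-/

set_option autoImplicit false

open scoped Pointwise nonZeroDivisors

noncomputable section

namespace Pool.Agent.DM.H3

open Pool.Agent.MuZ Pool.Agent.FW NumberField IsDedekindDomain
open Pool.Agent.DI (io ofC io_inj exists_io io_ofC ofC_io VP MP UP TP ex)
open Pool.Agent.DN
open Pool.Agent.DT (kap cbr kp S_pKa S_pTH S_pKap S_pLeg Thnp)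
open Pool.Agent.DT.H3 (IsLg lg Jc S_hCb S_hZt S_hAlR)
open Pool.Agent.DS.H3 (rd pL S_hLa S_hNmK S_hTra pri_dvd)

namespace FixAux

variable {k t : ℕ}

/-- An ideal of `τ` and an ideal of a conjugate of `τ` have the same class. -/
theorem ray_conj [SqN k t] (h2 : S_O7) (h3 : DS.S_E1) {n : ℕ} (hn : 0 < n) (hn15 : 15 ∣ n)
    {σ τ : Gal(Om/ℚ)} (hσ : σ ∈ GK k t) {a c : Ideal (OO k t)} (ha : Psi τ n a)
    (hc : Psi (σ * τ * σ⁻¹) n c) : Ray n c a := by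
  obtain ⟨s, hs⟩ := (h3 k t n hn hn15).1 σ hσ
  have h4 := (h3 k t n hn hn15).2.2.2.1 (σ * τ * σ⁻¹) σ c s hc hs
  have h5 := (h3 k t n hn hn15).2.2.2.1 σ τ s a hs ha
  rw [inv_mul_cancel_right] at h4
  have h6 := (h3 k t n hn hn15).2.1 (σ * τ) _ _ h4 h5
  rw [mul_comm s a] at h6
  exact (h2 k t n hn).2.2.2.2.1 c a s hs.ne (pri_dvd (Dvd.intro_left _ rfl) hs.cop) h6

/-- A field is the fixed field of its group. -/
theorem mem_of_fix (F : IntermediateField ℚ Om) {x : Om} (h : ∀ τ ∈ F.fixingSubgroup, τ x = x) :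
    x ∈ F := by
  rw [← InfiniteGalois.fixedField_fixingSubgroup F]
  exact (IntermediateField.mem_fixedField_iff F.fixingSubgroup x).2 h

theorem fix_of_mem (F : IntermediateField ℚ Om) {τ : Gal(Om/ℚ)} (hτ : τ ∈ F.fixingSubgroup) {x : Om}
    (hx : x ∈ F) : τ x = x :=
  (IntermediateField.mem_fixingSubgroup_iff F τ).1 hτ x hx

end FixAux

open FixAux

theorem tFix (h2 : S_O7) (h3 : DS.S_E1) (h4 : S_GM) (h5 : S_hPri) (h6 : S_hZt) : S_hFix := by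
  intro k t _ f N hf hN
  have hM : 0 < f * 3 ^ N := fpos hf N
  have h15 : 15 ∣ f * 3 ^ N := d15 hf hN
  obtain ⟨-, hHPN, -, hKf, hfin, -, hfix, hze⟩ := h4 k t f hf
  have hKQ : KQ k t ≤ Mn k t f N := hKf.trans (hfin N hN).2.1
  have hGK : ∀ τ : Gal(Om/ℚ), τ ∈ (Mn k t f N).fixingSubgroup → τ ∈ GK k t := by
    intro τ hτ
    exact (IntermediateField.mem_fixingSubgroup_iff (KQ k t) τ).2
      fun x hx => fix_of_mem _ hτ (hKQ hx)
  have hiff : ∀ τ : Gal(Om/ℚ), τ ∈ (Mn k t f N).fixingSubgroup ↔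
      τ ∈ GK k t ∧ ∀ c : Ideal (OO k t), Psi τ (f * 3 ^ N) c → HPN f N c := by
    intro τ
    constructor
    · intro hτ
      have hG := hGK τ hτ
      exact ⟨hG, fun c hc => (hfix N hN τ hG c hc).1 fun x hx => fix_of_mem _ hτ hx⟩
    · rintro ⟨hG, hτ⟩
      obtain ⟨c, hc⟩ := (h3 k t _ hM h15).1 τ hG
      exact (IntermediateField.mem_fixingSubgroup_iff (Mn k t f N) τ).2
        ((hfix N hN τ hG c hc).2 (hτ c hc))
  have hconj : ∀ σ ∈ GK k t, ∀ τ ∈ (Mn k t f N).fixingSubgroup,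
      σ * τ * σ⁻¹ ∈ (Mn k t f N).fixingSubgroup := by
    intro σ hσ τ hτ
    have hG := hGK τ hτ
    rw [hiff]
    refine ⟨mul_mem (mul_mem hσ hG) (inv_mem hσ), fun c hc => ?_⟩
    obtain ⟨a, ha⟩ := (h3 k t _ hM h15).1 τ hG
    have h7 : HPN f N a := ((hiff τ).1 hτ).2 a ha
    have h8 := ray_conj h2 h3 hM h15 hσ ha hc
    exact (hHPN N hN).2.2.1 a c h7 ((h2 k t _ hM).2.1 _ _ h8)
  refine ⟨(hfin N hN).1, ?_, hiff, hconj, ?_, ?_, ?_⟩
  · have : NeZero (3 ^ N : ℕ) := ⟨(pow_pos (by norm_num) N).ne'⟩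
    obtain ⟨ζ, hζ⟩ := HasEnoughRootsOfUnity.exists_primitiveRoot Om (3 ^ N)
    have h7 : DT.zet 3 ^ 3 ^ N = 1 := by
      obtain ⟨j, hj⟩ : (3 : ℕ) ∣ 3 ^ N := dvd_pow_self 3 (by omega)
      rw [hj, pow_mul, h6.1.pow_eq_one, one_pow]
    obtain ⟨i, -, hi⟩ := hζ.eq_pow_of_pow_eq_one h7
    refine mem_of_fix _ fun τ hτ => ?_
    have h8 := ((hze N hN ζ hζ τ).1 fun x hx => fix_of_mem _ hτ hx).2
    rw [← hi, map_pow, h8]
  · intro σ hσ x hx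
    refine mem_of_fix _ fun τ hτ => ?_
    have h7 := hconj σ⁻¹ (inv_mem hσ) τ hτ
    rw [inv_inv] at h7
    have h8 : (σ⁻¹ * τ * σ) x = x := fix_of_mem _ h7 hx
    have h9 : σ ((σ⁻¹ * τ * σ) x) = τ (σ x) := by
      rw [AlgEquiv.mul_apply, AlgEquiv.mul_apply]
      exact AlgEquiv.apply_symm_apply σ (τ (σ x))
    rw [← h9, h8]
  · intro τ hτ M hM1
    have hG := hGK τ hτ
    have hMM : 0 < f * 3 ^ N * M := Nat.mul_pos hM hM1
    have hMM15 := d15' hf hN M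
    obtain ⟨c, hc⟩ := (h3 k t _ hMM hMM15).1 τ hG
    have hc' : Psi τ (f * 3 ^ N) c :=
      (h3 k t _ hMM hMM15).2.2.2.2 τ (f * 3 ^ N) c hc (Nat.dvd_mul_right _ _) h15
    obtain ⟨γ, rfl, hγ⟩ := (h5 k t f N hf hN c).1 (((hiff τ).1 hτ).2 c hc')
    exact ⟨γ, hγ, hc⟩
  · intro σ hσ τ hτ n a hn hn15 ha
    have hG := hGK τ hτ
    obtain ⟨c, hc⟩ := (h3 k t n hn hn15).1 (σ * τ * σ⁻¹) (mul_mem (mul_mem hσ hG) (inv_mem hσ))
    exact (h3 k t n hn hn15).2.2.1 _ _ _ hc (ray_conj h2 h3 hn hn15 hσ ha hc)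

end Pool.Agent.DM.H3
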