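import Pool.Agent.Lib.DM.H3.Spec

/-!
# Theorem DM, part H: good points for `Theta` (author helper9)
-/

set_option autoImplicit false

open scoped Pointwise nonZeroDivisors

noncomputable section

namespace Pool.Agent.DM.H3

open Pool.Agent.MuZ Pool.Agent.FW NumberField IsDedekindDomain
open Pool.Agent.DI (io ofC io_inj exists_io io_ofC ofC_io VP MP UP TP ex)
open Pool.Agent.DN
open Pool.Agent.DT (kap cbr kp S_pKa S_pTH S_pKap S_pLeg Thnp)
open Pool.Agent.DT.H3 (IsLg lg Jc S_hCb S_hZt S_hAlR)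
open Pool.Agent.DS.H3 (rd pL S_hLa S_hNmK S_hTra pri_dvd)

namespace GdAux

theorem pr_mul {p : ℤ} (hp : Prime p) {a b : ℤ} (ha : ¬ p ∣ a) (hb : ¬ p ∣ b) : ¬ p ∣ a * b :=
  fun h => (hp.dvd_or_dvd h).elim ha hb

theorem not_one {k t : ℕ} {p : ℕ} (hp : 2 ≤ p) {v : OO k t} (h : ((p : ℕ) : OO k t) ∣ v - 1) :
    ¬ (p : ℤ) ∣ Nm v := by
  intro h2
  have h3 := Nm_congr h
  rw [Nm_one] at h3
  have h4 := dvd_sub h2 h3
  rw [sub_sub_cancel] at h4
  have h5 := Int.le_of_dvd one_pos h4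
  omega

theorem toC_mem {k t : ℕ} [SqN k t] (b : Ideal (OO k t)) (v : OO k t) : toC v ∈ Lam b :=
  lam_anti le_top (lam_top.2 ⟨v, rfl⟩)

/-- A point `y / p ^ N` with `Nm y` prime to `p` is not in the lattice. -/
theorem not_lat {k t : ℕ} [SqN k t] {p : ℕ} (hp : Prime (p : ℤ)) {b : Ideal (OO k t)} {N : ℕ}
    (hN : 1 ≤ N) {y e : OO k t} (heb : e ∈ b) (he : ¬ (p : ℤ) ∣ Nm e) (hy : ¬ (p : ℤ) ∣ Nm y) :
    toC y / ((p ^ N : ℕ) : ℂ) ∉ Lam b := by
  intro h
  obtain ⟨c, hc⟩ := h e heb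
  have hp0 : p ≠ 0 := by
    rintro rfl
    exact hp.ne_zero (by simp)
  have h20 : ((p ^ N : ℕ) : ℂ) ≠ 0 := by exact_mod_cast pow_ne_zero N hp0
  have h3 : e * y = ((p ^ N : ℕ) : OO k t) * c := by
    apply toC_inj
    rw [toC_mul, toC_mul, toC_nat, ← hc]
    field_simp
  have h4 : Nm e * Nm y = ((p ^ N : ℕ) : ℤ) ^ 2 * Nm c := by
    rw [← Nm_mul, h3, Nm_mul, Nm_nat]
  apply pr_mul hp he hy
  rw [h4]
  refine Dvd.dvd.mul_right ?_ _
  have h5 : (p : ℤ) ∣ ((p ^ N : ℕ) : ℤ) := by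
    push_cast
    exact dvd_pow_self _ (by omega)
  exact h5.mul_right _ |>.trans (by rw [sq])

end GdAux

open GdAux in
theorem tGd (h1 : S_O6) : S_hGd := by
  intro k t _ f N m b x la j hf hN hm hmP hb hbP hx hx3 hla hla3
  obtain ⟨-, -, -, -, hel⟩ := h1 k t
  obtain ⟨μ, hμm, hμ0, hμ1⟩ := hel 6 m (by norm_num) hm hmP
  obtain ⟨e, heb, he0, he1⟩ := hel 6 b (by norm_num) hb hbP
  have p2 : Prime ((2 : ℕ) : ℤ) := Int.prime_two
  have p3 : Prime ((3 : ℕ) : ℤ) := Int.prime_three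
  have h6 : ∀ v : OO k t, ((6 : ℕ) : OO k t) ∣ v - 1 →
      ¬ ((2 : ℕ) : ℤ) ∣ Nm v ∧ ¬ ((3 : ℕ) : ℤ) ∣ Nm v := by
    intro v hv
    exact ⟨not_one (by norm_num) (dvd_trans (Nat.cast_dvd_cast (by norm_num)) hv),
      not_one (by norm_num) (dvd_trans (Nat.cast_dvd_cast (by norm_num)) hv)⟩
  obtain ⟨hμ, hμ3⟩ := h6 μ hμ1
  obtain ⟨he, he3⟩ := h6 e he1
  have hfn : 0 < f := hf.pos
  have hla0 : la ≠ 0 := by
    rintro rfl
    apply hla
    rw [Nm_zero]
    exact dvd_zero _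
  have hlaC : toC la ≠ 0 := toC_ne hla0
  have hodd : ¬ ((2 : ℕ) : ℤ) ∣ Nm (la * μ * x) := by
    rw [Nm_mul, Nm_mul]
    exact pr_mul p2 (pr_mul p2 hla hμ) hx
  have h3n : ¬ ((3 : ℕ) : ℤ) ∣ Nm (la * μ * x) := by
    rw [Nm_mul, Nm_mul]
    exact pr_mul p3 (pr_mul p3 hla3 hμ3) hx3
  -- the two keys
  have hkeyA : ∀ s : ℕ, 1 ≤ s → toC (la * μ * x) / ((2 ^ s : ℕ) : ℂ) ∉ Lam b :=
    fun s hs => not_lat p2 hs heb he hodd
  have hkeyB : ∀ s : ℕ, 1 ≤ s → toC (la * μ * x) / ((3 ^ s : ℕ) : ℂ) ∉ Lam b :=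
    fun s hs => not_lat p3 hs heb he3 h3n
  have hM0 : ((f * 3 ^ N : ℕ) : ℂ) ≠ 0 := by exact_mod_cast (fpos hf N).ne'
  have hTz : Tor k t (Tz f N x) := tor_div (fpos hf N) x
  have hTp : ∀ i : ℕ, Tor k t (pL la i) := by
    intro i
    have hNm := Nm_pos hla0
    obtain ⟨n, hn⟩ : ∃ n : ℕ, (n : ℤ) = Nm la := ⟨(Nm la).toNat, Int.toNat_of_nonneg hNm.le⟩
    refine ⟨(i : OO k t) * cjO la, n, by omega, ?_⟩
    have h5 : ((n : ℕ) : ℂ) = toC la * toC (cjO la) := by
      rw [← toC_Nm, ← hn]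
      simp
    have h6 : toC (cjO la) ≠ 0 := by
      intro h
      rw [h, mul_zero] at h5
      have h7 : n = 0 := by exact_mod_cast h5
      omega
    unfold pL
    rw [h5, toC_mul, toC_nat]
    field_simp
  -- the computation
  have hz : ∀ p q : ℕ, p ≠ 0 → p * q = f * 3 ^ N → ∀ (i : ℕ) (u : ℂ),
      toC μ * u ∈ Lam b → ∃ w w' : ℂ, w ∈ Lam b ∧ w' ∈ Lam b ∧
      toC ((q : OO k t) * la * μ) * (Tz f N x + pL la i + u) =
        toC (la * μ * x) / (p : ℂ) + w ∧
      toC ((p : OO k t) * ((q : OO k t) * la * μ)) * (Tz f N x + pL la i + u) = w' := by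
    intro p q hp0 hpq i u hu
    have hp1 : (p : ℂ) ≠ 0 := by exact_mod_cast hp0
    have hqz : (q : ℂ) * Tz f N x = toC x / p := by
      unfold Tz
      rw [← hpq] at hM0 ⊢
      push_cast at hM0 ⊢
      have hq1 : (q : ℂ) ≠ 0 := right_ne_zero_of_mul hM0
      field_simp
    have e1 : toC ((q : OO k t) * la * μ) * (Tz f N x + pL la i + u) =
        toC (la * μ * x) / (p : ℂ) + (toC ((q : OO k t) * μ * (i : OO k t)) +
          toC ((q : OO k t) * la) * (toC μ * u)) := by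
      have e2 : toC ((q : OO k t) * la * μ) * (Tz f N x + pL la i + u) =
          toC la * toC μ * ((q : ℂ) * Tz f N x) + (q * toC μ * (toC la * pL la i) +
            toC ((q : OO k t) * la) * (toC μ * u)) := by
        simp only [toC_mul, toC_nat]
        ring
      have e3 : toC la * pL la i = i := by
        unfold pL
        field_simp
      rw [e2, e3, hqz]
      simp only [toC_mul, toC_nat]
      ring
    have hw : toC ((q : OO k t) * μ * (i : OO k t)) + toC ((q : OO k t) * la) * (toC μ * u) ∈ Lam b :=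
      lam_add (toC_mem b _) (lam_mul _ hu)
    refine ⟨_, _, hw, ?_, e1, rfl⟩
    have e2 : toC ((p : OO k t) * ((q : OO k t) * la * μ)) *
        (Tz f N x + pL la i + u) =
        toC (la * μ * x) + toC (p : OO k t) * (toC ((q : OO k t) * μ * (i : OO k t)) +
          toC ((q : OO k t) * la) * (toC μ * u)) := by
      rw [toC_mul (p : OO k t), mul_assoc, e1, mul_add]
      congr 1
      rw [toC_nat]
      field_simp
    rw [e2]
    exact lam_add (toC_mem b _) (lam_mul _ hw)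
  obtain ⟨s, g, hg, hfs⟩ := Nat.exists_eq_two_pow_mul_odd hfn.ne'
  have hs1 : 1 ≤ s := by
    by_contra h11
    have h12 : s = 0 := by omega
    rw [h12, pow_zero, one_mul] at hfs
    have h13 := hf.dvd
    rw [hfs] at h13
    obtain ⟨c', hc'⟩ := hg
    omega
  have hpqA : 2 ^ s * (3 ^ N * g) = f * 3 ^ N := by
    rw [hfs]
    ring
  have hpqB : 3 ^ N * f = f * 3 ^ N := mul_comm _ _
  have hgd : ∀ i : ℕ, Gd m b (Tz f N x + pL la i) := by
    intro i
    refine ⟨tor_add hTz (hTp i), ?_⟩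
    intro Q hQ u hu hq
    have : Q.IsPrime := hQ.1
    by_cases hQ2 : MP Q 2
    · have hQ3 : ¬ MP Q 3 := by
        intro h11
        apply DI.MP.one_not (P := Q)
        have h12 := h11.sub hQ2
        have e' : (3 : Om) - 2 = 1 := by norm_num
        rwa [e'] at h12
      obtain ⟨w, w', hw, hw', e1, e2⟩ := hz _ _ (by positivity) hpqB i u (lam_prod.1 hu μ hμm)
      have hα : ¬ MP Q (toO (((3 ^ N : ℕ) : ℕ) : OO k t)) := by
        intro h
        rw [toO_nat, Nat.cast_pow] at h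
        have h4 := DI.MP.of_pow h
        exact hQ3 (by exact_mod_cast h4)
      have h5 := hq _ _ hα (by rw [e2]; exact hw')
      rw [e1] at h5
      apply hkeyB N hN
      have h6 := lam_sub h5 hw
      rwa [add_sub_cancel_right] at h6
    · obtain ⟨w, w', hw, hw', e1, e2⟩ := hz _ _ (by positivity) hpqA i u (lam_prod.1 hu μ hμm)
      have hα : ¬ MP Q (toO (((2 ^ s : ℕ) : ℕ) : OO k t)) := by
        intro h
        rw [toO_nat, Nat.cast_pow] at h
        have h4 := DI.MP.of_pow h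
        exact hQ2 (by exact_mod_cast h4)
      have h5 := hq _ _ hα (by rw [e2]; exact hw')
      rw [e1] at h5
      apply hkeyA s hs1
      have h6 := lam_sub h5 hw
      rwa [add_sub_cancel_right] at h6
  have hp0 : pL la 0 = 0 := by
    unfold pL
    rw [Nat.cast_zero, zero_div]
  have hnot : ∀ i : ℕ, Tz f N x + pL la i ∉ Lam (sp la * m * b) := by
    intro i h
    have h4 : toC (la * μ) * (Tz f N x + pL la i) ∈ Lam b :=
      lam_prod.1 h (la * μ) (Ideal.mul_mem_mul (Ideal.mem_span_singleton_self la) hμm)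
    obtain ⟨w, w', hw, hw', e1, e2⟩ := hz _ _ (by positivity) hpqA i 0
      (by rw [mul_zero]; exact lam_zero b)
    rw [add_zero] at e1
    have h5 := lam_mul (((3 ^ N * g : ℕ) : OO k t)) h4
    rw [← mul_assoc, ← toC_mul, ← mul_assoc, e1] at h5
    apply hkeyA s hs1
    have h6 := lam_sub h5 hw
    rwa [add_sub_cancel_right] at h6
  refine ⟨hgd j, ?_, ?_, hnot j⟩
  · have := hgd 0
    rwa [hp0, add_zero] at this
  · have := hnot 0
    rwa [hp0, add_zero] at this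

end Pool.Agent.DM.H3
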