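import Pool.Agent.Lib.DM.H3.Spec

/-!
# Theorem DM, part H: the group `H_N` (author helper9)
-/

set_option autoImplicit false

open scoped Pointwise nonZeroDivisors

noncomputable section

namespace Pool.Agent.DM.H3

open Pool.Agent.MuZ Pool.Agent.FW NumberField IsDedekindDomain
open Pool.Agent.DI (io ofC io_inj exists_io io_ofC ofC_io VP MP UP TP ex)
open Pool.Agent.DN
open Pool.Agent.DT (kap cbr kp S_pKa S_pTH S_pKap S_pLeg Thnp)
open Pool.Agent.DT.H3 (IsLg lg Jc S_hCb S_hZt S_hAlR)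
open Pool.Agent.DS.H3 (rd pL S_hLa S_hNmK S_hTra pri_dvd)

variable {k t : ℕ}

namespace HNAux

theorem up {f : ℕ} {a : OO k t} {i : ℕ} (h : (f : OO k t) ∣ a ^ 3 ^ i - 1) (j : ℕ) :
    (f : OO k t) ∣ a ^ 3 ^ (i + j) - 1 := by
  have h1 : a ^ 3 ^ i - 1 ∣ (a ^ 3 ^ i) ^ 3 ^ j - 1 := by
    have := sub_dvd_pow_sub_pow (a ^ 3 ^ i) 1 (3 ^ j)
    rwa [one_pow] at this
  have h2 := h.trans h1
  rwa [← pow_mul, ← pow_add] at h2

theorem hfmul {f : ℕ} {a b : OO k t} (ha : Hf f a) (hb : Hf f b) : Hf f (a * b) := by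
  obtain ⟨ha1, i, hi⟩ := ha
  obtain ⟨hb1, j, hj⟩ := hb
  refine ⟨cop_mul ha1 hb1, i + j, ?_⟩
  have h1 := up hi j
  have h2 := up hj i
  rw [add_comm j i] at h2
  have e : (a * b) ^ 3 ^ (i + j) - 1 =
      (a ^ 3 ^ (i + j) - 1) * b ^ 3 ^ (i + j) + (b ^ 3 ^ (i + j) - 1) := by
    rw [mul_pow]
    ring
  rw [e]
  exact dvd_add (Dvd.dvd.mul_right h1 _) h2

theorem per {f N : ℕ} (hN : 1 ≤ N) {a b : OO k t} (ha : HN f N a)
    (h : ((f * 3 ^ N : ℕ) : OO k t) ∣ a - b) : HN f N b := by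
  obtain ⟨⟨ha1, i, hi⟩, ha2⟩ := ha
  have hf : ((3 * f : ℕ) : OO k t) ∣ a - b := by
    refine dvd_trans ?_ h
    obtain ⟨N, rfl⟩ := Nat.exists_eq_add_of_le hN
    refine ⟨((3 ^ N : ℕ) : OO k t), ?_⟩
    rw [← Nat.cast_mul]
    congr 1
    ring
  refine ⟨⟨cop_congr hf ha1, i, ?_⟩, ?_⟩
  · have h1 := hf.trans (sub_dvd_pow_sub_pow a b (3 ^ i))
    have e : b ^ 3 ^ i - 1 = (a ^ 3 ^ i - 1) - (a ^ 3 ^ i - b ^ 3 ^ i) := by ring
    rw [e]
    exact dvd_sub hi h1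
  · have h1 := Nm_congr h
    have h2 : (3 : ℤ) ^ N ∣ Nm a - Nm b := by
      refine dvd_trans ?_ h1
      push_cast
      exact Dvd.intro_left _ rfl
    have e : Nm b - 1 = (Nm a - 1) - (Nm a - Nm b) := by ring
    rw [e]
    exact dvd_sub ha2 h2

theorem three_cube (x : ℤ) : (3 : ℤ) ∣ x ^ 3 - x := by
  have h : ∀ y : ZMod 3, y ^ 3 - y = 0 := by decide
  have h1 := h (x : ZMod 3)
  rw [← Int.cast_pow, ← Int.cast_sub] at h1
  exact (ZMod.intCast_zmod_eq_zero_iff_dvd _ 3).1 h1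

/-- `a ^ 3` is the conjugate of `a` modulo `3`. -/
theorem frob [hI : Ine3 k t] (a : OO k t) : ((3 : ℕ) : OO k t) ∣ a ^ 3 - cjO a := by
  have h1 := hI.one
  obtain ⟨x, y⟩ := a
  have hx := three_cube x
  have hy := three_cube y
  have e3 : ∀ z : OO k t, z ^ 3 = z * (z * z) := fun z => by ring
  rw [nat_dvd_iff, e3, QuadraticAlgebra.re_sub, QuadraticAlgebra.im_sub, DN.re_mul, DN.re_mul,
    DN.im_mul, DN.im_mul, DN.re_mul, DN.im_mul]
  unfold cjO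
  rcases hI.toNsp.toSqN.out with ⟨rfl, h2, -⟩ | ⟨rfl, h2, -, -⟩
  · obtain ⟨s, hs⟩ : ∃ s : ℤ, (k : ℤ) = 3 * s + 2 := by
      refine ⟨((k / 3 : ℕ) : ℤ), ?_⟩
      unfold Dk at h1
      omega
    obtain ⟨u, hu⟩ := hx
    obtain ⟨v, hv⟩ := hy
    have hx' : x ^ 3 = x + 3 * u := by linarith
    have hy' : y ^ 3 = y + 3 * v := by linarith
    push_cast
    rw [hs]
    constructor
    · refine ⟨u - (3 * s + 2) * x * y ^ 2 - s * y ^ 3 - y - 2 * v, ?_⟩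
      linear_combination hx' - 2 * hy'
    · refine ⟨x ^ 2 * y + x * y ^ 2 - s * y ^ 3 - v + 0, ?_⟩
      linear_combination (-1 : ℤ) * hy'
  · obtain ⟨s, hs⟩ : ∃ s : ℤ, (k : ℤ) = 3 * s + 1 := by
      refine ⟨((k / 3 : ℕ) : ℤ), ?_⟩
      unfold Dk at h1
      omega
    obtain ⟨u, hu⟩ := hx
    obtain ⟨v, hv⟩ := hy
    have hx' : x ^ 3 = x + 3 * u := by linarith
    have hy' : y ^ 3 = y + 3 * v := by linarith
    push_cast
    rw [hs]
    constructor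
    · refine ⟨u - (3 * s + 1) * x * y ^ 2, ?_⟩
      linear_combination hx'
    · refine ⟨x ^ 2 * y - s * y ^ 3 - v, ?_⟩
      linear_combination (-1 : ℤ) * hy'

theorem frob2 [Ine3 k t] (a : OO k t) : ((3 : ℕ) : OO k t) ∣ a ^ 9 - a := by
  have h1 := frob a
  have h2 := frob (cjO a)
  rw [cjO_cjO] at h2
  have h3 := h1.trans (sub_dvd_pow_sub_pow (a ^ 3) (cjO a) 3)
  have e : a ^ 9 - a = ((a ^ 3) ^ 3 - cjO a ^ 3) + (cjO a ^ 3 - a) := by ring
  rw [e]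
  exact dvd_add h3 h2

theorem frobn [Ine3 k t] (a : OO k t) (i : ℕ) : ((3 : ℕ) : OO k t) ∣ a ^ 9 ^ i - a := by
  induction i with
  | zero => simp
  | succ i ih =>
    have h1 := ih.trans (sub_dvd_pow_sub_pow (a ^ 9 ^ i) a 9)
    have e : a ^ 9 ^ (i + 1) - a = ((a ^ 9 ^ i) ^ 9 - a ^ 9) + (a ^ 9 - a) := by
      rw [pow_succ 9 i, pow_mul]
      ring
    rw [e]
    exact dvd_add h1 (frob2 a)

/-- The elements of `H_f` are `1` modulo `3`. -/
theorem one3 [Ine3 k t] {f : ℕ} {a : OO k t} (ha : Hf f a) : (3 : OO k t) ∣ a - 1 := by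
  obtain ⟨-, j, hj⟩ := ha
  have h1 : ((3 : ℕ) : OO k t) ∣ a ^ 9 ^ j - 1 := by
    have h2 := up hj j
    have e : 3 ^ (j + j) = 9 ^ j := by
      rw [← two_mul, pow_mul]
      norm_num
    rw [e] at h2
    exact dvd_trans (Nat.cast_dvd_cast (Dvd.intro _ rfl)) h2
  have h3 := dvd_sub h1 (frobn a j)
  have e : a ^ 9 ^ j - 1 - (a ^ 9 ^ j - a) = a - 1 := by ring
  rw [e] at h3
  exact_mod_cast h3

/-- `3` ramified: the cubes are integers modulo `3`. -/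
theorem cube_int [hI : SqN k t] (h0 : Dk k t % 3 = 0) (a : OO k t) :
    ((3 : ℕ) : OO k t) ∣ a ^ 3 - ((a.re + 2 * t * a.im : ℤ) : OO k t) := by
  obtain ⟨x, y⟩ := a
  have hx := three_cube x
  have hy := three_cube y
  have e3 : ∀ z : OO k t, z ^ 3 = z * (z * z) := fun z => by ring
  rw [nat_dvd_iff, e3, QuadraticAlgebra.re_sub, QuadraticAlgebra.im_sub, DN.re_mul, DN.re_mul,
    DN.im_mul, DN.im_mul, DN.re_mul, DN.im_mul, DN.re_int, DN.im_int]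
  rcases hI.out with ⟨rfl, h2, -⟩ | ⟨rfl, h2, -, -⟩
  · obtain ⟨s, hs⟩ : ∃ s : ℤ, (k : ℤ) = 3 * s + 1 := by
      refine ⟨((k / 3 : ℕ) : ℤ), ?_⟩
      unfold Dk at h0
      omega
    obtain ⟨u, hu⟩ := hx
    obtain ⟨v, hv⟩ := hy
    have hx' : x ^ 3 = x + 3 * u := by linarith
    have hy' : y ^ 3 = y + 3 * v := by linarith
    push_cast
    rw [hs]
    constructor
    · refine ⟨u - (3 * s + 1) * x * y ^ 2 - s * y ^ 3 - v - y, ?_⟩
      linear_combination hx' - hy'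
    · refine ⟨x ^ 2 * y + x * y ^ 2 - s * y ^ 3, ?_⟩
      ring
  · obtain ⟨s, hs⟩ : ∃ s : ℤ, (k : ℤ) = 3 * s := by
      refine ⟨((k / 3 : ℕ) : ℤ), ?_⟩
      unfold Dk at h0
      omega
    obtain ⟨u, hu⟩ := hx
    have hx' : x ^ 3 = x + 3 * u := by linarith
    push_cast
    rw [hs]
    constructor
    · refine ⟨u - (3 * s) * x * y ^ 2, ?_⟩
      linear_combination hx'
    · refine ⟨x ^ 2 * y - s * y ^ 3, ?_⟩
      ring

theorem cube_n (s : ℤ) (j : ℕ) : (3 : ℤ) ∣ s ^ 3 ^ j - s := by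
  induction j with
  | zero => simp
  | succ j ih =>
    have h1 := three_cube (s ^ 3 ^ j)
    rw [← pow_mul, ← pow_succ] at h1
    have := dvd_add h1 ih
    rwa [sub_add_sub_cancel] at this

/-- The cubes of the elements of `H_f` are `1` modulo `3`. -/
theorem cube3 [hN : Nsp k t] {f : ℕ} {a : OO k t} (ha : Hf f a) : (3 : OO k t) ∣ a ^ 3 - 1 := by
  by_cases h1 : Dk k t % 3 = 1
  · have : Ine3 k t := ⟨h1⟩
    have h2 := (one3 ha).trans (sub_dvd_pow_sub_pow a 1 3)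
    rwa [one_pow] at h2
  · have h0 : Dk k t % 3 = 0 := by
      have := hN.nsp
      omega
    obtain ⟨-, j, hj⟩ := ha
    obtain ⟨s, hs⟩ : ∃ s : ℤ, s = a.re + 2 * t * a.im := ⟨_, rfl⟩
    have h2 : ((3 : ℕ) : OO k t) ∣ a ^ 3 - (s : OO k t) := by
      rw [hs]
      exact cube_int h0 a
    have h3 : ((3 : ℕ) : OO k t) ∣ a ^ 3 ^ (j + 1) - 1 :=
      dvd_trans (Nat.cast_dvd_cast (Dvd.intro _ rfl)) (up hj 1)
    have h4 : ((3 : ℕ) : OO k t) ∣ a ^ 3 ^ (j + 1) - ((s ^ 3 ^ j : ℤ) : OO k t) := by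
      have := h2.trans (sub_dvd_pow_sub_pow (a ^ 3) (s : OO k t) (3 ^ j))
      rw [← pow_mul, ← pow_succ'] at this
      push_cast
      push_cast at this
      exact this
    have h5 : ((3 : ℕ) : OO k t) ∣ ((s ^ 3 ^ j - s : ℤ) : OO k t) := by
      obtain ⟨c, hc⟩ := cube_n s j
      rw [hc]
      push_cast
      exact Dvd.intro _ rfl
    have e : a ^ 3 - 1 = (a ^ 3 - (s : OO k t)) - ((s ^ 3 ^ j - s : ℤ) : OO k t) +
        (a ^ 3 ^ (j + 1) - 1) - (a ^ 3 ^ (j + 1) - ((s ^ 3 ^ j : ℤ) : OO k t)) := by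
      push_cast
      ring
    have h6 := dvd_sub (dvd_add (dvd_sub h2 h5) h3) h4
    rw [← e] at h6
    exact_mod_cast h6

end HNAux

open HNAux

/-- The group `H_N`. -/
theorem tHN : S_hHN := by
  intro k t _ f N hf hN
  refine ⟨⟨⟨cop_one _, 0, by simp⟩, by rw [Nm_one]; simp⟩, ?_,
    fun a b ha h => per hN ha h, ?_⟩
  · intro a b ha hb
    refine ⟨hfmul ha.1 hb.1, ?_⟩
    rw [Nm_mul]
    have e : Nm a * Nm b - 1 = (Nm a - 1) * Nm b + (Nm b - 1) := by ring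
    rw [e]
    exact dvd_add (Dvd.dvd.mul_right ha.2 _) hb.2
  · intro a ha
    have h3f : Cop a (3 * f) := ha.1.1
    have hc3 : Cop a 3 := cop_dvd h3f (Dvd.intro _ rfl)
    have hcf : Cop a f := cop_dvd h3f (Dvd.intro_left _ rfl)
    refine ⟨?_, h3f, ?_, cop_dvd hcf (dvd_trans (by norm_num) hf.dvd), hc3, cube3 ha.1⟩
    · rintro rfl
      have h1 : IsCoprime (Nm (0 : OO k t)) ((3 * f : ℕ) : ℤ) := ha.1.1
      rw [Nm_zero, isCoprime_zero_left] at h1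
      have h2 := Int.isUnit_iff.1 h1
      omega
    · have h1 : IsCoprime (Nm a) (f : ℤ) := hcf
      have h2 : IsCoprime (Nm a) ((3 : ℕ) : ℤ) := hc3
      unfold Cop
      push_cast
      push_cast at h2
      exact h1.mul_right h2.pow_right

end Pool.Agent.DM.H3
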