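import Pool.Agent.Lib.DM.H3.HN
import Pool.Agent.Lib.DS.H3.In

/-!
# Theorem DM, part H: inertia groups of `L'_N` at the primes not above `3` (author helper9)
-/

set_option autoImplicit false

open scoped Pointwise nonZeroDivisors

noncomputable section

namespace Pool.Agent.DM.H3

open Pool.Agent.MuZ Pool.Agent.FW NumberField IsDedekindDomain
open Pool.Agent.DI (io ofC io_inj exists_io io_ofC ofC_io VP MP UP TP ex)
open Pool.Agent.DN
open Pool.Agent.DT (kap cbr kp S_pKa S_pTH S_pKap S_pLeg Thnp)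
open Pool.Agent.DT.H3 (IsLg lg Jc S_hCb S_hZt S_hAlR)
open Pool.Agent.DS.H3 (rd pL S_hLa S_hNmK S_hTra pri_dvd)

open Pool.Agent.DS.H3.InAux (exists_nat_mem not_mem_of_cop inertia_root)

namespace InAux

variable {k t : ℕ}

/-- The equations modulo `l`. -/
theorem eqs [SqN k t] {l : ℕ} {x y : ℤ}
    (h1 : ((l : ℕ) : OO k t) ∣ (⟨x, y⟩ : OO k t) ^ 3 - 1) (h2 : (l : ℤ) ∣ Nm (⟨x, y⟩ : OO k t) - 1) :
    (x : ZMod l) ^ 3 - 3 * x * y ^ 2 * k - t * k * y ^ 3 = 1 ∧
    3 * (x : ZMod l) ^ 2 * y + 3 * t * x * y ^ 2 + (t ^ 2 - k) * (y : ZMod l) ^ 3 = 0 ∧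
    (x : ZMod l) ^ 2 + t * x * y + k * y ^ 2 = 1 := by
  have e3 : ∀ z : OO k t, z ^ 3 = z * (z * z) := fun z => by ring
  rw [nat_dvd_iff, e3, QuadraticAlgebra.re_sub, QuadraticAlgebra.im_sub, DN.re_mul, DN.re_mul,
    DN.im_mul, DN.im_mul, DN.re_mul, DN.im_mul, re_one, im_one] at h1
  obtain ⟨h3, h4⟩ := h1
  have h5 := (ZMod.intCast_zmod_eq_zero_iff_dvd _ l).2 h3
  have h6 := (ZMod.intCast_zmod_eq_zero_iff_dvd _ l).2 h4
  have h7 := (ZMod.intCast_zmod_eq_zero_iff_dvd _ l).2 h2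
  unfold Nm at h7
  push_cast at h5 h6 h7
  refine ⟨?_, ?_, ?_⟩
  · linear_combination h5
  · linear_combination h6
  · linear_combination h7

/-- `3` ramified. -/
theorem arith [hI : SqN k t] (h0 : Dk k t % 3 = 0) (B : ℕ) : ∃ l : ℕ, l.Prime ∧ B < l ∧
    ∀ a : OO k t, ((l : ℕ) : OO k t) ∣ a ^ 3 - 1 → (l : ℤ) ∣ Nm a - 1 →
      ∃ e : OO k t, Nm e = 1 ∧ ((l : ℕ) : OO k t) ∣ e * a - 1 := by
  by_cases hk1 : k = 1 ∧ t = 1
  · -- `K = ℚ(√-3)`
    obtain ⟨rfl, rfl⟩ := hk1
    obtain ⟨l, hlB, hl⟩ := Nat.exists_infinite_primes (B + 4)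
    refine ⟨l, hl, by omega, ?_⟩
    rintro ⟨x, y⟩ h1 h2
    have : Fact l.Prime := ⟨hl⟩
    obtain ⟨q1, q2, q3⟩ := eqs h1 h2
    push_cast at q1 q2 q3
    have h3 : (3 : ZMod l) ≠ 0 := by
      intro h
      have h3 : ((3 : ℕ) : ZMod l) = 0 := by exact_mod_cast h
      rw [ZMod.natCast_eq_zero_iff] at h3
      have h4 := Nat.le_of_dvd (by norm_num) h3
      omega
    -- `3 y (1 - y ^ 2) = 0`
    have h4 : (3 : ZMod l) * ((y : ZMod l) * ((1 - y) * (1 + y))) = 0 := by
      linear_combination q2 - 3 * (y : ZMod l) * q3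
    have hfin : ∀ c d : ℤ, (x : ZMod l) = c → (y : ZMod l) = d → ∀ e : OO 1 1, Nm e = 1 →
        e * ⟨c, d⟩ = 1 → ∃ e : OO 1 1, Nm e = 1 ∧ ((l : ℕ) : OO 1 1) ∣ e * ⟨x, y⟩ - 1 := by
      intro c d hc hd e he hee
      refine ⟨e, he, ?_⟩
      have e1 : e * (⟨x, y⟩ : OO 1 1) - 1 = e * ⟨x - c, y - d⟩ := by
        rw [← hee, ← mul_sub]
        congr 1
      rw [e1]
      refine Dvd.dvd.mul_left ?_ _
      rw [nat_dvd_iff]
      constructor
      · refine (ZMod.intCast_zmod_eq_zero_iff_dvd _ l).1 ?_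
        push_cast
        rw [hc, sub_self]
      · refine (ZMod.intCast_zmod_eq_zero_iff_dvd _ l).1 ?_
        push_cast
        rw [hd, sub_self]
    rcases mul_eq_zero.1 h4 with h | h
    · exact absurd h h3
    · rcases mul_eq_zero.1 h with h | h
      · -- `y = 0`
        rw [h] at q1 q3
        have hx2 : (x : ZMod l) ^ 2 = 1 := by linear_combination q3
        have hx3 : (x : ZMod l) ^ 3 = 1 := by linear_combination q1
        have hx : (x : ZMod l) = 1 := by linear_combination hx3 - (x : ZMod l) * hx2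
        exact hfin 1 0 (by push_cast; exact hx) (by push_cast; exact h) 1 Nm_one (by decide)
      · rcases mul_eq_zero.1 h with h | h
        · -- `y = 1`
          have hy : (y : ZMod l) = 1 := by linear_combination -h
          rw [hy] at q1 q3
          have hxx : (x : ZMod l) ^ 2 + x = 0 := by linear_combination q3
          have hx : (x : ZMod l) = -1 := by
            have e1 : (x : ZMod l) ^ 3 - 3 * x - 1 = 1 := by linear_combination q1
            -- `x^3 = x x^2 = - x^2 = x`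
            have e2 : (x : ZMod l) ^ 3 = x := by linear_combination ((x : ZMod l) - 1) * hxx
            have e3 : (2 : ZMod l) * (x + 1) = 0 := by linear_combination e2 - e1
            have h20 : (2 : ZMod l) ≠ 0 := by
              intro h
              have h3 : ((2 : ℕ) : ZMod l) = 0 := by exact_mod_cast h
              rw [ZMod.natCast_eq_zero_iff] at h3
              have h4 := Nat.le_of_dvd (by norm_num) h3
              omega
            rcases mul_eq_zero.1 e3 with h | h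
            · exact absurd h h20
            · linear_combination h
          exact hfin (-1) 1 (by push_cast; exact hx) (by push_cast; exact hy) ⟨0, -1⟩ (by decide)
            (by decide)
        · -- `y = -1`
          have hy : (y : ZMod l) = -1 := by linear_combination h
          rw [hy] at q1 q3
          have hxx : (x : ZMod l) ^ 2 - x = 0 := by linear_combination q3
          have hx : (x : ZMod l) = 0 := by
            have e1 : (x : ZMod l) ^ 3 - 3 * x + 1 = 1 := by linear_combination q1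
            have e2 : (x : ZMod l) ^ 3 = x := by linear_combination ((x : ZMod l) + 1) * hxx
            have e3 : (2 : ZMod l) * x = 0 := by linear_combination e2 - e1
            have h20 : (2 : ZMod l) ≠ 0 := by
              intro h
              have h3 : ((2 : ℕ) : ZMod l) = 0 := by exact_mod_cast h
              rw [ZMod.natCast_eq_zero_iff] at h3
              have h4 := Nat.le_of_dvd (by norm_num) h3
              omega
            rcases mul_eq_zero.1 e3 with h | h
            · exact absurd h h20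
            · exact h
          exact hfin 0 (-1) (by push_cast; exact hx) (by push_cast; exact hy) ⟨-1, 1⟩ (by decide)
            (by decide)
  · -- `D ≠ 3`
    obtain ⟨n0, hn0, hn2, hsq⟩ : ∃ n0 : ℕ, Squarefree n0 ∧ 2 ≤ n0 ∧
        (t = 1 ∧ 4 * k = 3 * n0 + 1 ∨ t = 0 ∧ k = 3 * n0) := by
      rcases hI.out with ⟨rfl, h2, h3⟩ | ⟨rfl, h2, h3, h4⟩
      · unfold Dk at h0
        obtain ⟨n0, hn0⟩ : ∃ n0, 4 * k - 1 = 3 * n0 := ⟨(4 * k - 1) / 3, by omega⟩
        rw [hn0] at h3
        refine ⟨n0, h3.of_mul_right, ?_, Or.inl ⟨rfl, by omega⟩⟩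
        have hk : k ≠ 1 := fun h => hk1 ⟨h, rfl⟩
        omega
      · unfold Dk at h0
        obtain ⟨n0, hn0⟩ : ∃ n0, k = 3 * n0 := ⟨k / 3, by omega⟩
        rw [hn0] at h3
        refine ⟨n0, h3.of_mul_right, ?_, Or.inr ⟨rfl, hn0⟩⟩
        omega
    obtain ⟨l, hl, hlB, hns⟩ := DR.H3.exists_nonres hn0 hn2 (B + 4)
    refine ⟨l, hl, by omega, ?_⟩
    rintro ⟨x, y⟩ h1 h2
    have : Fact l.Prime := ⟨hl⟩
    have h3 : (3 : ZMod l) ≠ 0 := by
      intro h
      have h3 : ((3 : ℕ) : ZMod l) = 0 := by exact_mod_cast h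
      rw [ZMod.natCast_eq_zero_iff] at h3
      have h4 := Nat.le_of_dvd (by norm_num) h3
      omega
    have h20 : (2 : ZMod l) ≠ 0 := by
      intro h
      have h3 : ((2 : ℕ) : ZMod l) = 0 := by exact_mod_cast h
      rw [ZMod.natCast_eq_zero_iff] at h3
      have h4 := Nat.le_of_dvd (by norm_num) h3
      omega
    obtain ⟨q1, q2, q3⟩ := eqs h1 h2
    -- `y (3 - D y ^ 2) = 0`
    have h4 : (y : ZMod l) * (3 - (4 * k - t ^ 2) * y ^ 2) = 0 := by
      linear_combination q2 - 3 * (y : ZMod l) * q3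
    rcases mul_eq_zero.1 h4 with h | h
    · rw [h] at q1 q3
      have hx2 : (x : ZMod l) ^ 2 = 1 := by linear_combination q3
      have hx3 : (x : ZMod l) ^ 3 = 1 := by linear_combination q1
      have hx : (x : ZMod l) = 1 := by linear_combination hx3 - (x : ZMod l) * hx2
      refine ⟨1, Nm_one, ?_⟩
      rw [one_mul, nat_dvd_iff, QuadraticAlgebra.re_sub, QuadraticAlgebra.im_sub, re_one, im_one]
      constructor
      · refine (ZMod.intCast_zmod_eq_zero_iff_dvd _ l).1 ?_
        push_cast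
        rw [hx, sub_self]
      · refine (ZMod.intCast_zmod_eq_zero_iff_dvd _ l).1 ?_
        push_cast
        rw [h, sub_self]
    · exfalso
      have hy0 : (y : ZMod l) ≠ 0 := by
        intro hy
        rw [hy] at h
        apply h3
        linear_combination h
      rcases hsq with ⟨rfl, hk⟩ | ⟨rfl, hk⟩
      · apply hns
        have e1 : (4 : ZMod l) * k = 3 * n0 + 1 := by exact_mod_cast congrArg (Nat.cast : ℕ → ZMod l) hk
        have e2 : (3 : ZMod l) * (1 - n0 * y ^ 2) = 0 := by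
          push_cast at h
          linear_combination h + (y : ZMod l) ^ 2 * e1
        rcases mul_eq_zero.1 e2 with h5 | h5
        · exact absurd h5 h3
        · refine ⟨(y : ZMod l)⁻¹, ?_⟩
          field_simp
          linear_combination -h5
      · apply hns
        have e1 : (k : ZMod l) = 3 * n0 := by exact_mod_cast congrArg (Nat.cast : ℕ → ZMod l) hk
        have e2 : (3 : ZMod l) * (1 - n0 * (2 * y) ^ 2) = 0 := by
          push_cast at h
          linear_combination h + 4 * (y : ZMod l) ^ 2 * e1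
        rcases mul_eq_zero.1 e2 with h5 | h5
        · exact absurd h5 h3
        · refine ⟨(2 * (y : ZMod l))⁻¹, ?_⟩
          field_simp
          linear_combination -h5

end InAux

open InAux in
/-- **Inertia groups at the primes not above `3`.** -/
theorem tIn (h0 : S_O2) (h1 : S_O6) (h2 : S_O7) (h3 : DS.S_E4l) (h5 : DS.S_E1) (h7 : DS.S_E6)
    (h8 : S_hFix) (h9 : S_hHN) : S_hIn := by
  intro k t inst f N hf hN P hP hP3 ι hι hιF M a δ hM haN ha hδ hle hA
  have hPp : P.IsPrime := hP.1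
  obtain ⟨-, -, hfix, -, -, hgen, -⟩ := h8 k t f N hf hN
  have hK : ι ∈ GK k t := ((hfix ι).1 hιF).1
  obtain ⟨-, -, -, o4, -⟩ := h1 k t
  obtain ⟨-, -, -, n4⟩ := h9 k t f N hf hN
  have h3P : ((3 : ℕ) : ZZ) ∉ P := by
    intro h
    exact hP3 (by exact_mod_cast (DI.MP.nat_iff (P := P) 3).2 h)
  have hFN : 0 < f * 3 ^ N := fpos hf N
  have hM1 : 0 < f * 3 ^ N * M := Nat.mul_pos hFN hM
  have h15M : 15 ∣ f * 3 ^ N * M := d15' hf hN M
  have h3N : ∀ L : ℕ, 3 ∣ f * 3 ^ N * L := fun L => ((dvd_pow_self 3 (by omega)).mul_left f).mul_right L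
  -- elements which are `1` modulo a number `p`, at a higher level
  have main : ∀ (p L : ℕ) (v : OO k t), 2 ≤ p → (p : ZZ) ∉ P → 0 < L → p ∣ f * 3 ^ N * (M * L) →
      ((p : ℕ) : OO k t) ∣ v - 1 → Psi ι (f * 3 ^ N * (M * L)) (sp v) →
      ∃ e : OO k t, Nm e = 1 ∧ e * a - 1 ∈ δ := by
    intro p L v hp hpP hL hpL hv hPsi
    have hM2 : 0 < f * 3 ^ N * (M * L) := Nat.mul_pos hFN (Nat.mul_pos hM hL)
    have hdM : f * 3 ^ N * M ∣ f * 3 ^ N * (M * L) := ⟨L, by ring⟩
    have h15M2 := d15' hf hN (M * L)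
    have hv1 : Psi ι (f * 3 ^ N * M) (sp v) := (h5 k t _ hM2 h15M2).2.2.2.2 ι _ _ hPsi hdM h15M
    have hray : Ray (f * 3 ^ N * M) (sp v) (sp a) := (h5 k t _ hM1 h15M).2.1 ι _ _ hv1 ha
    have hcM : ∀ b : OO k t, Psi ι (f * 3 ^ N * M) (sp b) → Cop b (f * 3 ^ N * M) := fun b hb =>
      (o4 _ b hM1).1 (pri_dvd (Dvd.intro_left _ rfl) hb.cop)
    have hne : ∀ b : OO k t, Psi ι (f * 3 ^ N * M) (sp b) → b ≠ 0 := fun b hb h10 =>
      hb.ne (Ideal.span_singleton_eq_bot.2 h10)
    obtain ⟨e, he, hdvd⟩ := ((h2 k t _ hM1).2.2.2.2.2.2.2.1 v a (hne _ hv1) (hne _ ha) (hcM _ hv1)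
      (hcM _ ha)).1 hray
    have hva : v - e * a ∈ δ := hle (Ideal.mem_span_singleton.2 hdvd)
    rcases h3 k t p hp P hP hpP ι hι v δ _ hM2 h15M2 hpL hδ
      ((Ideal.span_singleton_le_span_singleton.2 (Nat.cast_dvd_cast hdM)).trans hle) hA hv hPsi with h | h
    · refine ⟨e, he, ?_⟩
      have := δ.sub_mem h hva
      rwa [sub_sub_sub_cancel_left] at this
    · refine ⟨-e, by rw [Nm_neg, he], ?_⟩
      have h10 := δ.sub_mem hva h
      have e1 : v - e * a - (v + 1) = -e * a - 1 := by ring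
      rwa [e1] at h10
  by_cases hD : Dk k t % 3 = 1
  · have : Ine3 k t := ⟨hD⟩
    refine main 3 1 a (by norm_num) h3P one_pos (h3N _) ?_ (by rwa [mul_one])
    exact_mod_cast HNAux.one3 haN.1
  · have hD0 : Dk k t % 3 = 0 := by
      have := inst.nsp
      omega
    obtain ⟨c, hc0, hc⟩ := exists_nat_mem hP
    obtain ⟨l, hl, hB, hlar⟩ := arith hD0 (c + 3)
    have hlP : (l : ZZ) ∉ P := by
      refine not_mem_of_cop hPp hc ?_
      exact (Nat.Coprime.symm ((Nat.Prime.coprime_iff_not_dvd hl).2 fun h => by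
        have := Nat.le_of_dvd hc0 h
        omega))
    obtain ⟨a', haN', ha'⟩ := hgen ι hιF (M * l) (Nat.mul_pos hM hl.pos)
    have hM2 : 0 < f * 3 ^ N * (M * l) := Nat.mul_pos hFN (Nat.mul_pos hM hl.pos)
    have h15M2 := d15' hf hN (M * l)
    have hlM2 : l ∣ f * 3 ^ N * (M * l) := (Dvd.intro_left _ rfl : l ∣ M * l).mul_left _
    -- the cube
    have ha3 : Psi (ι * ι * ι) (f * 3 ^ N * (M * l)) (sp (a' ^ 3)) := by
      have h10 := (h5 k t _ hM2 h15M2).2.2.2.1 ι ι _ _ ha' ha'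
      have h11 := (h5 k t _ hM2 h15M2).2.2.2.1 (ι * ι) ι _ _ h10 ha'
      have e1 : sp a' * sp a' * sp a' = sp (a' ^ 3) := by
        rw [Ideal.span_singleton_mul_span_singleton, Ideal.span_singleton_mul_span_singleton]
        congr 2
        ring
      rwa [e1] at h11
    have h3a : (3 : OO k t) ∣ a' ^ 3 - 1 := (n4 a' haN').2.2.2.2.2
    have h3l : 3 * l ∣ f * 3 ^ N * (M * l) := by
      obtain ⟨c', hc'⟩ := h3N M
      exact ⟨c', by rw [← mul_assoc, hc']; ring⟩
    have hδ3 : sp ((3 * l : ℕ) : OO k t) ≠ ⊥ := by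
      intro h
      have h5 : ((3 * l : ℕ) : OO k t) = 0 := Ideal.span_singleton_eq_bot.1 h
      have h6 := congrArg Nm h5
      rw [Nm_nat, Nm_zero] at h6
      have h7 : ((3 * l : ℕ) : ℤ) = 0 := pow_eq_zero_iff (two_ne_zero) |>.1 h6
      omega
    have hA3 : ¬ Abv P (sp ((3 * l : ℕ) : OO k t)) := by
      intro h
      have h5 := h _ (Ideal.mem_span_singleton_self _)
      rw [toO_nat] at h5
      have h6 : ((3 * l : ℕ) : ZZ) ∈ P := (DI.MP.nat_iff _).1 h5
      rw [Nat.cast_mul] at h6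
      rcases hPp.mem_or_mem h6 with h7 | h7
      · exact h3P h7
      · exact hlP h7
    have hcube : ((l : ℕ) : OO k t) ∣ a' ^ 3 - 1 := by
      have h10 : ((l : ℕ) : OO k t) ∣ ((3 * l : ℕ) : OO k t) := Nat.cast_dvd_cast (Dvd.intro_left _ rfl)
      rcases h3 k t 3 (by norm_num) P hP h3P (ι * ι * ι) (mul_mem (mul_mem hι hι) hι) (a' ^ 3)
        (sp ((3 * l : ℕ) : OO k t)) _ hM2 h15M2 (h3N _) hδ3
        (Ideal.span_singleton_le_span_singleton.2 (Nat.cast_dvd_cast h3l)) hA3
        (by exact_mod_cast h3a) ha3 with h | h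
      · exact h10.trans (Ideal.mem_span_singleton.1 h)
      · exfalso
        have h11 : ((3 : ℕ) : OO k t) ∣ ((3 * l : ℕ) : OO k t) := Nat.cast_dvd_cast (Dvd.intro _ rfl)
        have h12 := h11.trans (Ideal.mem_span_singleton.1 h)
        have h13 : ((3 : ℕ) : OO k t) ∣ a' ^ 3 - 1 := by exact_mod_cast h3a
        have h14 := dvd_sub h12 h13
        have e1 : a' ^ 3 + 1 - (a' ^ 3 - 1) = ((2 : ℕ) : OO k t) := by
          push_cast
          ring
        rw [e1, nat_dvd_iff, re_nat] at h14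
        have h15 : ((3 : ℕ) : ℤ) ∣ ((2 : ℕ) : ℤ) := h14.1
        omega
    -- the norm
    have hNl : (l : ℤ) ∣ Nm a' - 1 := by
      have hl0 : NeZero l := ⟨hl.ne_zero⟩
      obtain ⟨ζ, hζ⟩ := HasEnoughRootsOfUnity.exists_primitiveRoot Om l
      have h10 : ι ζ = ζ ^ NI (sp a') := by
        refine h7 k t ι _ _ hK hM2 h15M2 ha' ζ ?_
        obtain ⟨u, hu⟩ := hlM2
        rw [hu, pow_mul, hζ.pow_eq_one, one_pow]
      have h11 : ι ζ = ζ := inertia_root hPp hlP hl.pos hι hζ.pow_eq_one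
      rw [h11] at h10
      have h12 : ζ ^ ((NI (sp a') : ℤ) - 1) = 1 := by
        rw [zpow_sub₀ (hζ.ne_zero hl.ne_zero), zpow_natCast, zpow_one, ← h10,
          div_self (hζ.ne_zero hl.ne_zero)]
      have h13 := (hζ.zpow_eq_one_iff_dvd _).1 h12
      rwa [(h0 k t).2.2.2.1] at h13
    obtain ⟨e', he', hle'⟩ := hlar a' hcube hNl
    refine main l l (e' * a') (by omega) hlP hl.pos hlM2 hle' ?_
    rwa [DS.H3.span_unit_mul he' a']

end Pool.Agent.DM.H3
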