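import Pool.Agent.Lib.DM.H3.Eps

/-!
# Theorem DM, part H, module `Nrm`: the norm (author helper9)
-/

set_option autoImplicit false

open scoped Pointwise nonZeroDivisors

noncomputable section

namespace Pool.Agent.DM.H3

open Pool.Agent.MuZ Pool.Agent.FW NumberField IsDedekindDomain
open Pool.Agent.DI (io ofC io_inj exists_io io_ofC ofC_io VP MP UP TP ex)
open Pool.Agent.DN
open Pool.Agent.DT (kap cbr kp S_pKa S_pTH S_pKap S_pLeg Thnp)
open Pool.Agent.DT.H3 (IsLg lg Jc S_hCb S_hZt S_hAlR)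
open Pool.Agent.DS.H3 (rd pL S_hLa S_hNmK S_hTra pri_dvd)

open EpsAux in
theorem tNrm (h1 : S_D8) (h2 : S_G3) (h3 : S_hCb) (h5 : S_hTP) : S_hNrm := by
  intro k t _ f N m T b l la r hD C hC
  have hf := hD.hf
  have hN := hD.N1
  have hm0 : m ≠ ⊥ := hD.hm.ne
  have hb0 : b ≠ ⊥ := hD.hb0
  obtain ⟨-, -, -, -, -, -, c7, -⟩ := h3 l hD.hl hD.hl3
  obtain ⟨-, hu0, -⟩ := h2 k t f m N T hD.hm hD.hN hD.hT b hb0 hD.hb
  have hTP := h5 k t f N T la (fun x => Theta m b (Tz f N x)) hf hN hD.hT hD.hHN (by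
    intro e x he
    rw [← tz_mul, theta_unit h1 hm0 hb0 hD.m30 he]) (by
    intro x y
    rw [tz_add f N hf, per h1 hm0 hb0 hD.m30])
  have hp0 : pL la 0 = 0 := by
    unfold pL
    simp
  have e1 : ∏ h ∈ T, ∏ j ∈ Finset.range l, Theta m b (Tz f N h + pL la j) =
      uN f N m T b * epq f N m T b l la 0 * epq f N m T b l la 1 * epq f N m T b l la 2 := by
    have hu : uN f N m T b = ∏ h ∈ T, Theta m b (Tz f N h) := rfl
    rw [hu]
    unfold epq
    rw [← Finset.prod_mul_distrib, ← Finset.prod_mul_distrib, ← Finset.prod_mul_distrib]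
    refine Finset.prod_congr rfl fun h _ => ?_
    rw [c7 (fun j => Theta m b (Tz f N h + pL la j)), hp0, add_zero]
  have e2 : ∏ h ∈ T, ∏ j ∈ Finset.range l, Theta m b (Tz f N h + pL la j) =
      C ^ T.card * uN f N m T b := by
    rw [Finset.prod_congr rfl hC, Finset.prod_mul_distrib, Finset.prod_const]
    congr 1
  rw [e1] at e2
  have e3 : uN f N m T b * (epq f N m T b l la 0 * epq f N m T b l la 1 *
      epq f N m T b l la 2) = uN f N m T b * C ^ T.card := by
    linear_combination e2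
  exact mul_left_cancel₀ hu0 e3

end Pool.Agent.DM.H3
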