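import Pool.Agent.Lib.DM.H3.Spec
import Pool.Agent.Lib.DS.H3.Un
import Pool.Agent.Lib.DI.H3.Prm

/-!
# Theorem DM, part H, module `Ram`: `h` is ramified over `λ` (author helper9, after `DT/H3/Ram.lean`)
-/

set_option autoImplicit false

open scoped Pointwise nonZeroDivisors

noncomputable section

namespace Pool.Agent.DM.H3

open Pool.Agent.MuZ Pool.Agent.FW NumberField IsDedekindDomain
open Pool.Agent.DI (io ofC io_inj exists_io io_ofC ofC_io VP MP UP TP ex)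
open Pool.Agent.DN
open Pool.Agent.DT (kap cbr kp S_pKa S_pTH S_pKap S_pLeg Thnp)
open Pool.Agent.DT.H3 (IsLg lg Jc S_hCb S_hZt S_hAlR)
open Pool.Agent.DS.H3 (rd pL S_hLa S_hNmK S_hTra pri_dvd)

namespace RamAux

private theorem xO_congr {k t : ℕ} {b b' : Ideal (OO k t)} {z z' : ℂ} (h : DN.XC b z = DN.XC b' z') :
    DN.xO b z = DN.xO b' z' := by
  unfold DN.xO
  rw [h]

/-- a cube root of unity which is congruent to one modulo a prime not over `3` -/
private theorem cube_root {P : Ideal ZZ} [hP : P.IsPrime] (hP3 : ¬ MP P 3) {ζ : Om}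
    (h3 : ζ ^ 3 = 1) (h : MP P (ζ - 1)) : ζ = 1 := by
  by_contra h1
  have h4 : (ζ - 1) * (ζ ^ 2 + ζ + 1) = 0 := by
    have e : (ζ - 1) * (ζ ^ 2 + ζ + 1) = ζ ^ 3 - 1 := by ring
    rw [e, h3, sub_self]
  have h5 : ζ ^ 2 + ζ + 1 = 0 := by
    rcases mul_eq_zero.1 h4 with h6 | h6
    · exact absurd (sub_eq_zero.1 h6) h1
    · exact h6
  have hV : VP P ζ := by
    refine DI.VP.integral ?_
    refine ⟨Polynomial.X ^ 3 - 1, ?_, ?_⟩
    · monicity!
    · simp [h3]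
  have e : (3 : Om) = -((ζ + 2) * (ζ - 1)) := by
    linear_combination h5
  apply hP3
  rw [e]
  have hV2 : VP P (2 : Om) := by
    have := DI.VP.nat (P := P) 2
    simpa using this
  exact (DI.MP.mul_left (hV.add hV2) h).neg

end RamAux

open RamAux in
theorem tRam (h1 : DN.S_B1) (h2 : DN.S_B7) (h3 : DS.S_D4) (h4 : S_O6) (h5 : S_hCb) (h6 : S_hRdm)
    (h7 : S_hDg) (h8 : S_hLat) (h9 : S_hFix) (h10 : S_hIn) (h11 : S_hHN) : S_hRam := by
  intro k t _ f N l la r hN hD h hh P hP hPla β hβ3 ι hι hιL hne h0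
  have : P.IsPrime := hP.1
  have hlp := hD.hl
  have : Fact l.Prime := ⟨hlp⟩
  have : NeZero l := ⟨hlp.ne_zero⟩
  have hl3 := hD.hl3
  have gl2 : l ≠ 2 := hD.two
  have hM : 0 < f * 3 ^ N * l := Nat.mul_pos (fpos hD.hf N) hlp.pos
  obtain ⟨r1, r2, r3, r4, r5, r6, r7, -, -, -⟩ := h6 k t f l la r hD
  obtain ⟨q1, q2, -, -, -, q6⟩ := h8 k t f l la r hD
  obtain ⟨g1, -, g3, -, -, g8⟩ := h7 k t f l la r hD
  obtain ⟨-, -, -, o4, -⟩ := h4 k t
  obtain ⟨c1, c2, c3, -, -, -, -, -, c9, -⟩ := h5 l hlp hl3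
  obtain ⟨-, -, x3, -, -, x6, -⟩ := h9 k t f N hD.hf hN
  obtain ⟨n1, -, n3, n4⟩ := h11 k t f N hD.hf hN
  have htop : (⊤ : Ideal (OO k t)) ≠ ⊥ := top_ne_bot
  have hPt : PrI (⊤ : Ideal (OO k t)) l := top_sup_eq _
  obtain ⟨q61, -⟩ := q6 ⊤ htop hPt
  obtain ⟨b1, b2, -⟩ := h1 k t ⊤ htop
  obtain ⟨b7, -⟩ := (h2 k t ⊤ htop).2.2 g15_top.cop
  obtain ⟨hlP, hP3, hP2, hPM⟩ := g8 P hP hPla
  have hGK : ι ∈ GK k t := ((x3 ι).1 hιL).1
  -- `a` is `1` modulo `15`
  obtain ⟨a, haN, ha, ha15⟩ : ∃ a : OO k t, HN f N a ∧ Psi ι (f * 3 ^ N * l) (sp a) ∧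
      (15 : OO k t) ∣ a - 1 := by
    obtain ⟨a0, haN0, ha0⟩ := x6 ι hιL l hlp.pos
    have hδ : sp ((f * 3 ^ N : ℕ) : OO k t) ≠ ⊥ := by
      intro h
      have h5 : ((f * 3 ^ N : ℕ) : OO k t) = 0 := Ideal.span_singleton_eq_bot.1 h
      have h6 := congrArg Nm h5
      rw [Nm_nat, Nm_zero] at h6
      have h7 : ((f * 3 ^ N : ℕ) : ℤ) = 0 := pow_eq_zero_iff (two_ne_zero) |>.1 h6
      have h8 := fpos hD.hf N
      omega
    have hnA : ¬ Abv P (sp ((f * 3 ^ N : ℕ) : OO k t)) := by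
      intro h
      have h5 := h _ (Ideal.mem_span_singleton_self _)
      rw [toO_nat] at h5
      exact hPM _ (hD.copM N) ((DI.MP.nat_iff _).1 h5)
    obtain ⟨e, he, hea⟩ := h10 k t f N hD.hf hN P hP hP3 ι hι hιL l a0
      (sp ((f * 3 ^ N : ℕ) : OO k t)) hlp.pos haN0 ha0 hδ
      (Ideal.span_singleton_le_span_singleton.2 (Nat.cast_dvd_cast (Dvd.intro _ rfl))) hnA
    have hea' : ((f * 3 ^ N : ℕ) : OO k t) ∣ e * a0 - 1 := Ideal.mem_span_singleton.1 hea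
    have h15M : ((15 : ℕ) : OO k t) ∣ ((f * 3 ^ N : ℕ) : OO k t) := Nat.cast_dvd_cast (d15 hD.hf hN)
    refine ⟨e * a0, n3 1 _ n1 ?_, ?_, ?_⟩
    · rw [← neg_sub]
      exact (dvd_neg).2 hea'
    · rwa [DS.H3.span_unit_mul he a0]
    · exact_mod_cast h15M.trans hea'
  have ha3 : (3 : OO k t) ∣ a - 1 := dvd_trans ⟨5, by norm_num⟩ ha15
  have ha5 : (5 : OO k t) ∣ a - 1 ∨ (5 : OO k t) ∣ a + 1 := Or.inl (dvd_trans ⟨3, by norm_num⟩ ha15)
  have ha0 : a ≠ 0 := fun h11 => ha.ne (Ideal.span_singleton_eq_bot.2 h11)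
  have hcop : Cop a l :=
    cop_dvd ((o4 _ a hM).1 (pri_dvd (Dvd.intro_left _ rfl) ha.cop)) (Dvd.intro_left _ rfl)
  have hlg : lg l (rd r a) = 0 := by
    rw [← hh ι hιL _ a hM dvd_rfl haN ha]
    exact h0
  have hxa : rd r a ≠ 0 := r7 a hcop
  set x : ZMod l := rd r a with hx
  set G : ℕ → Om := fun j => DN.xO (⊤ : Ideal (OO k t)) (pL la j) with hG
  set e : ℕ → ℕ := fun j => (x * (j : ZMod l)).val with he
  have hecast : ∀ j : ℕ, ((e j : ℕ) : ZMod l) = x * j := fun j => by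
    rw [he]
    exact ZMod.natCast_zmod_val _
  have hper : ∀ (z : ℂ) (v : OO k t),
      DN.XC (⊤ : Ideal (OO k t)) (z + toC v) = DN.XC (⊤ : Ideal (OO k t)) z :=
    fun z v => by
      unfold DN.XC
      rw [(b1 z (toC v) (lam_top.2 ⟨v, rfl⟩)).1]
  have heven : ∀ z : ℂ, DN.XC (⊤ : Ideal (OO k t)) (-z) = DN.XC (⊤ : Ideal (OO k t)) z := fun z => by
    unfold DN.XC
    rw [(b2 z).1]
  have hRG : ∀ i j : ℕ, ((i : ZMod l) = j ∨ (i : ZMod l) = -(j : ZMod l)) → G i = G j := by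
    rintro i j (hij | hij)
    · obtain ⟨z, hz⟩ := q1 1 j i (by rw [r6, one_mul, hij])
      rw [toC_one, one_mul] at hz
      apply xO_congr
      rw [hz]
      exact (hper _ z).symm
    · obtain ⟨z, hz⟩ := q1 (-1) j i (by rw [r4, r6, hij, neg_mul, one_mul])
      rw [toC_neg, toC_one, neg_one_mul] at hz
      apply xO_congr
      rw [← heven (pL la j), hz]
      exact (hper _ z).symm
  have hmem : ∀ j : ℕ, j ∈ Jc l 0 ↔ j < l ∧ 0 < j ∧ lg l (j : ZMod l) = 0 := by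
    intro j
    unfold Jc
    exact Finset.mem_filter.trans (and_congr_left' Finset.mem_range)
  have hj0 : ∀ j : ℕ, 0 < j → j < l → (j : ZMod l) ≠ 0 := by
    intro j hj hjl h11
    have h12 := Nat.le_of_dvd hj ((ZMod.natCast_eq_zero_iff _ _).1 h11)
    omega
  have hcast_sub : ∀ j : ℕ, j ≤ l → ((l - j : ℕ) : ZMod l) = -(j : ZMod l) := by
    intro j hj
    rw [Nat.cast_sub hj, ZMod.natCast_self, zero_sub]
  have hιG : ∀ j : ℕ, ι (G j) = G (e j) := by
    intro j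
    obtain ⟨z, hz⟩ := q1 a j (e j) (hecast j)
    have e0 : ((f * 3 ^ N * l : ℕ) : ℂ) * pL la j ∈ Lam (⊤ : Ideal (OO k t)) := by
      refine lam_top.2 ⟨((f * 3 ^ N : ℕ) : OO k t) * ((j : OO k t) * cjO la), ?_⟩
      have hlC : (l : ℂ) ≠ 0 := by exact_mod_cast hlp.ne_zero
      rw [toC_mul, toC_nat, q2 j, Nat.cast_mul (f * 3 ^ N) l]
      field_simp
    have e2 : ι (DN.xO (⊤ : Ideal (OO k t)) (pL la j)) =
        DN.xO (sp a * (⊤ : Ideal (OO k t))) (pL la j) :=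
      ha.xx ⊤ htop g15_top.cop _ e0
    change ι (DN.xO (⊤ : Ideal (OO k t)) (pL la j)) = DN.xO (⊤ : Ideal (OO k t)) (pL la (e j))
    rw [e2]
    apply xO_congr
    rw [((b7 a ha0 ha3 ha5).2.2.2 _).1, hz, hper]
  set B : Finset ℕ := (Jc l 0).filter (fun j => 2 * j < l) with hB
  have hBmem : ∀ j : ℕ, j ∈ B ↔ (j < l ∧ 0 < j ∧ lg l (j : ZMod l) = 0) ∧ 2 * j < l := by
    intro j
    rw [hB, Finset.mem_filter, hmem]
  have hprod : ∏ j ∈ B, G (e j) = ∏ j ∈ B, G j := by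
    refine DI.H3.tPrm ℕ Om B (fun i j => (i : ZMod l) = j ∨ (i : ZMod l) = -(j : ZMod l)) e G
      ?_ ?_ ?_ ?_ hRG
    · rintro i j (hij | hij)
      · exact Or.inl hij.symm
      · right
        rw [hij, neg_neg]
    · rintro i j k (hij | hij) (hjk | hjk)
      · exact Or.inl (hij.trans hjk)
      · exact Or.inr (hij.trans hjk)
      · right
        rw [hij, hjk]
      · left
        rw [hij, hjk, neg_neg]
    · intro s hs
      obtain ⟨⟨hs1, hs2, hs3⟩, hs4⟩ := (hBmem s).1 hs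
      have hs0 := hj0 s hs2 hs1
      have hne' : ((e s : ℕ) : ZMod l) ≠ 0 := by
        rw [hecast]
        exact mul_ne_zero hxa hs0
      have hes0 : 0 < e s := by
        rw [Nat.pos_iff_ne_zero]
        intro h11
        rw [h11] at hne'
        exact hne' Nat.cast_zero
      have hsq' : lg l ((e s : ℕ) : ZMod l) = 0 := by
        rw [hecast, c1 _ _ hxa hs0, hlg, hs3, add_zero]
      have hlt : e s < l := ZMod.val_lt _
      by_cases hc : 2 * e s < l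
      · exact ⟨e s, (hBmem _).2 ⟨⟨hlt, hes0, hsq'⟩, hc⟩, Or.inl rfl⟩
      · have hodd : l % 2 = 1 := by
          rcases hlp.eq_two_or_odd with h11 | h11
          · exact absurd h11 gl2
          · exact h11
        refine ⟨l - e s, (hBmem _).2 ⟨⟨?_, ?_, ?_⟩, ?_⟩, Or.inr ?_⟩
        · omega
        · omega
        · rw [hcast_sub _ hlt.le, c3 _ hne']
          exact hsq'
        · omega
        · rw [hcast_sub _ hlt.le, neg_neg]
    · intro s hs s' hs' hR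
      obtain ⟨⟨hs1, hs2, hs3⟩, hs4⟩ := (hBmem s).1 hs
      obtain ⟨⟨hs1', hs2', hs3'⟩, hs4'⟩ := (hBmem s').1 hs'
      rw [hecast, hecast] at hR
      rcases hR with hR | hR
      · have h11 : (s : ZMod l) = s' := mul_left_cancel₀ hxa hR
        have h12 := (ZMod.natCast_eq_natCast_iff' s s' l).1 h11
        rwa [Nat.mod_eq_of_lt hs1, Nat.mod_eq_of_lt hs1'] at h12
      · exfalso
        have h11 : (s : ZMod l) = -(s' : ZMod l) := by
          apply mul_left_cancel₀ hxa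
          rw [hR, mul_neg]
        have h12 : ((s + s' : ℕ) : ZMod l) = 0 := by
          rw [Nat.cast_add, h11, neg_add_cancel]
        have h13 : l ∣ s + s' := (ZMod.natCast_eq_zero_iff _ _).1 h12
        have h15 := Nat.le_of_dvd (by omega) h13
        omega
  -- the unit `y = x₁ β`
  obtain ⟨x1, hx1⟩ : ∃ x1 : Om, x1 = ∏ j ∈ B, G j := ⟨_, rfl⟩
  have hιx1 : ι x1 = x1 := by
    rw [hx1, map_prod]
    exact (Finset.prod_congr rfl fun j _ => hιG j).trans hprod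
  have hcard : 6 * B.card = l - 1 := c9
  have hBpos : 0 < B.card := by
    have := hlp.two_le
    omega
  have hhalf : (l - 1) / 2 = 3 * B.card := by omega
  have hUy2 : UP P ((x1 * β) ^ (3 * B.card)) := by
    have e1 : (x1 * β) ^ (3 * B.card) = ∏ j ∈ B, (toO la * G j ^ ((l - 1) / 2)) := by
      rw [Finset.prod_mul_distrib, Finset.prod_const, Finset.prod_pow, ← hx1, hhalf, mul_pow,
        ← hβ3, ← pow_mul, mul_comm]
    rw [e1]
    refine DI.UP.prod _ _ fun j hj => ?_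
    obtain ⟨⟨hj1, hj2, hj3⟩, -⟩ := (hBmem j).1 hj
    obtain ⟨w1, w2⟩ := q61 j hj2 hj1
    exact h3 k t la l g1 hD.cop30 P (hD.hG P hP hPla) hPla ⊤ g15_top _ (lam_sp.1 w1) w2
  have hUy : UP P (x1 * β) := DI.UP.of_pow (by omega) hUy2
  -- the root of unity
  have hβ0 : β ≠ 0 := by
    intro h11
    apply hne
    rw [h11, map_zero]
  have hζ3 : (ι β / β) ^ 3 = 1 := by
    rw [div_pow, ← map_pow, hβ3, GK_toO hGK, ← hβ3]
    exact div_self (pow_ne_zero _ hβ0)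
  have hM := DI.VP.inertia hι hUy.1
  have hM2 : MP P ((ι β / β - 1) * (x1 * β)) := by
    have e1 : ι (x1 * β) - x1 * β = (ι β / β - 1) * (x1 * β) := by
      rw [map_mul, hιx1]
      field_simp
    rwa [e1] at hM
  have hVζ : VP P (ι β / β - 1) := by
    refine DI.VP.sub (DI.VP.integral ?_) DI.VP.one
    refine ⟨Polynomial.X ^ 3 - 1, ?_, ?_⟩
    · monicity!
    · simp [hζ3]
  rcases DI.MP.mul_cases hVζ hUy.1 hM2 with h11 | h11
  · have h12 := cube_root hP3 hζ3 h11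
    apply hne
    rwa [div_eq_one_iff_eq hβ0] at h12
  · exact hUy.2 h11

end Pool.Agent.DM.H3
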