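import Pool.Agent.Lib.DM.H3.Spec
import Pool.Agent.Lib.DS.H3.Rdm

/-!
# Theorem DM, part H: the reduction modulo `λ` (author helper9)
-/

set_option autoImplicit false

open scoped Pointwise nonZeroDivisors

noncomputable section

namespace Pool.Agent.DM.H3

open Pool.Agent.MuZ Pool.Agent.FW NumberField IsDedekindDomain
open Pool.Agent.DI (io ofC io_inj exists_io io_ofC ofC_io VP MP UP TP ex)
open Pool.Agent.DN
open Pool.Agent.DT (kap cbr kp S_pKa S_pTH S_pKap S_pLeg Thnp)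
open Pool.Agent.DT.H3 (IsLg lg Jc S_hCb S_hZt S_hAlR)
open Pool.Agent.DS.H3 (rd pL S_hLa S_hNmK S_hTra pri_dvd)

open Pool.Agent.DS.H3.RdmAux

/-- Fourth roots of unity are cubes. -/
theorem lg_four {l : ℕ} (hl : l.Prime) (s1 : ∀ x y : ZMod l, x ≠ 0 → y ≠ 0 → lg l (x * y) = lg l x + lg l y)
    (s2 : lg l 1 = 0) {x : ZMod l} (h : x ^ 4 = 1) : lg l x = 0 := by
  have : Fact l.Prime := ⟨hl⟩
  have hx : x ≠ 0 := by
    rintro rfl
    rw [zero_pow (by norm_num)] at h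
    exact zero_ne_one h
  have e : x ^ 4 = (x * x) * (x * x) := by ring
  rw [e] at h
  have h1 := s1 (x * x) (x * x) (mul_ne_zero hx hx) (mul_ne_zero hx hx)
  rw [h, s2, s1 x x hx hx] at h1
  have key : ∀ y : ZMod 3, 0 = y + y + (y + y) → y = 0 := by decide
  exact key _ h1

/-- For `l = 1` modulo `9` the cube roots of unity are cubes. -/
theorem cube_of {l : ℕ} (hl : l.Prime) (h9 : l % 9 = 1) {x : ZMod l} (hx : x ^ 3 = 1) :
    ∃ y : ZMod l, y ^ 3 = x := by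
  have : Fact l.Prime := ⟨hl⟩
  have hx0 : x ≠ 0 := by
    rintro rfl
    rw [zero_pow (by norm_num)] at hx
    exact zero_ne_one hx
  obtain ⟨g, hg⟩ := IsCyclic.exists_generator (α := (ZMod l)ˣ)
  obtain ⟨i, hi⟩ := Subgroup.mem_zpowers_iff.1 (hg (Units.mk0 x hx0))
  have hord : orderOf g = l - 1 := by
    rw [orderOf_eq_card_of_forall_mem_zpowers hg, Nat.card_eq_fintype_card, ZMod.card_units]
  have h1 : g ^ (i * 3) = 1 := by
    rw [zpow_mul, hi]
    apply Units.ext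
    push_cast
    exact_mod_cast hx
  have h2 : (orderOf g : ℤ) ∣ i * 3 := orderOf_dvd_iff_zpow_eq_one.2 h1
  rw [hord] at h2
  obtain ⟨m, hm⟩ : ∃ m, l - 1 = 9 * m := ⟨l / 9, by omega⟩
  rw [hm] at h2
  obtain ⟨c, hc⟩ := h2
  push_cast at hc
  have hi3 : i = (m * c) * 3 := by linarith
  refine ⟨((g ^ ((m : ℤ) * c) : (ZMod l)ˣ) : ZMod l), ?_⟩
  rw [← Units.val_pow_eq_pow_val, ← zpow_natCast, ← zpow_mul]
  have e : (m : ℤ) * c * ((3 : ℕ) : ℤ) = i := by
    rw [hi3]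
    push_cast
    ring
  rw [e, hi, Units.val_mk0]

/-- Units are cubes modulo `λ`. -/
theorem unit_lg {k t : ℕ} [SqN k t] {l : ℕ} (hcb : S_hCb) (hl : l.Prime) (hl9 : l % 9 = 1) {r : ZMod l}
    (hr : r ^ 2 = t * r - k) {e : OO k t} (he : Nm e = 1) : rd r e ≠ 0 ∧ lg l (rd r e) = 0 := by
  have : Fact l.Prime := ⟨hl⟩
  obtain ⟨s1, s2, s3, -⟩ := hcb l hl (by omega)
  have key : ∀ x : ZMod l, x ^ 3 = 1 → x ≠ 0 ∧ lg l x = 0 := by
    intro x hx
    have hx0 : x ≠ 0 := by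
      rintro rfl
      rw [zero_pow (by norm_num)] at hx
      exact zero_ne_one hx
    obtain ⟨y, rfl⟩ := cube_of hl hl9 hx
    have hy : y ≠ 0 := by
      rintro rfl
      exact hx0 (zero_pow (by norm_num))
    refine ⟨hx0, ?_⟩
    have e3 : y ^ 3 = (y * y) * y := by ring
    rw [e3, s1 _ _ (mul_ne_zero hy hy) hy, s1 _ _ hy hy]
    have key : ∀ z : ZMod 3, z + z + z = 0 := by decide
    exact key _
  have hneg : ∀ x : ZMod l, (-x ≠ 0 ∧ lg l (-x) = 0) → x ≠ 0 ∧ lg l x = 0 := by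
    rintro x ⟨h1, h2⟩
    have hx0 : x ≠ 0 := by
      rintro rfl
      exact h1 neg_zero
    exact ⟨hx0, by rw [← s3 x hx0, h2]⟩
  rcases units he with h | h | h | h | ⟨hk, ho, h⟩
  · rw [h, rd_one]
    exact ⟨one_ne_zero, s2⟩
  · rw [h, rd_neg, rd_one]
    exact hneg _ (by rw [neg_neg]; exact ⟨one_ne_zero, s2⟩)
  · apply key
    rw [← rd_pow hr, h, rd_one]
  · apply hneg
    apply key
    have e3 : (-rd r e) ^ 3 = -(rd r e ^ 3) := by ring
    rw [e3, ← rd_pow hr, h, rd_neg, rd_one, neg_neg]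
  · subst hk
    subst ho
    have hw : rd r (wI 1 0) = r := by
      unfold rd wI
      simp
    have hr' : r ^ 2 = -1 := by
      rw [hr]
      simp
    have h4 : r ^ 4 = 1 := by
      have e4 : r ^ 4 = (r ^ 2) ^ 2 := by ring
      rw [e4, hr']
      ring
    have h5 : r ≠ 0 ∧ lg l r = 0 := by
      refine ⟨?_, lg_four hl s1 s2 h4⟩
      rintro rfl
      rw [zero_pow (by norm_num)] at h4
      exact zero_ne_one h4
    rcases h with rfl | rfl
    · rw [hw]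
      exact h5
    · rw [rd_neg, hw]
      exact hneg _ (by rw [neg_neg]; exact h5)

theorem tRdm (hcb : S_hCb) : S_hRdm := by
  intro k t _ f l la r hD
  have hN : la * cjO la = (l : OO k t) := by
    rw [mul_cjO, hD.hla, Int.cast_natCast]
  refine ⟨rd_mul hD.hr, rd_add r, rd_sub r, rd_neg r, rd_nat r, rd_one r, ?_, hN,
    ⟨cjO la, hN.symm⟩, fun e he => unit_lg hcb hD.hl hD.hl9 hD.hr he⟩
  intro a ha h0
  have h2 : (l : ℤ) ∣ Nm a := by
    rw [← hD.hla]
    exact Nm_dvd ((hD.hker a).1 h0)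
  have h3 : IsUnit (l : ℤ) := IsCoprime.isUnit_of_dvd' ha h2 dvd_rfl
  rw [Int.isUnit_iff] at h3
  have h4 := hD.hl.one_lt
  omega

end Pool.Agent.DM.H3
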