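import Pool.Agent.Lib.DM.H3.TP
import Pool.Agent.Lib.DT.H3.T3

/-!
# Theorem DM, part H: `3` divides `|T|` for `2 ≤ N` (author helper9)

`v = 1 + f 3^(N-1) √-D`.
-/

set_option autoImplicit false

open scoped Pointwise nonZeroDivisors

noncomputable section

namespace Pool.Agent.DM.H3

open Pool.Agent.MuZ Pool.Agent.FW NumberField IsDedekindDomain
open Pool.Agent.DI (io ofC io_inj exists_io io_ofC ofC_io VP MP UP TP ex)
open Pool.Agent.DN
open Pool.Agent.DT (kap cbr kp S_pKa S_pTH S_pKap S_pLeg Thnp)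
open Pool.Agent.DT.H3 (IsLg lg Jc S_hCb S_hZt S_hAlR)
open Pool.Agent.DS.H3 (rd pL S_hLa S_hNmK S_hTra pri_dvd)

variable {k t : ℕ}

theorem tT3 (h7 : S_O7) (h2 : S_hHN) : S_hT3 := by
  classical
  intro k t _ f N T hf hN hT
  obtain ⟨-, hmul, -, hprop⟩ := h2 k t f N hf (le_trans (by norm_num) hN)
  obtain ⟨n, rfl⟩ : ∃ n, N = n + 2 := ⟨N - 2, by omega⟩
  set M : ℕ := f * 3 ^ (n + 1) with hM
  have hM3 : f * 3 ^ (n + 2) = M * 3 := by
    rw [hM]
    ring
  have hMpos : 0 < M := Nat.mul_pos hf.pos (pow_pos (by norm_num) _)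
  have h3M : 3 ∣ M := (dvd_pow_self 3 (by omega)).trans (Dvd.intro_left f rfl)
  have hM0 : (M : OO k t) ≠ 0 := by
    intro h
    have h5 := congrArg Nm h
    rw [Nm_nat, Nm_zero] at h5
    have h6 : (M : ℤ) = 0 := by simpa using h5
    omega
  -- the element `v`
  set v : OO k t := 1 + (M : OO k t) * sD k t with hv
  have hNv : Nm v = 1 + (M : ℤ) ^ 2 * (4 * k - (t : ℤ) ^ 2) := by
    have h1 : v.re = 1 - M * t := by
      rw [hv, QuadraticAlgebra.re_add, DN.re_mul, DN.re_nat, DN.im_nat, DN.re_one]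
      unfold sD
      ring
    have h2 : v.im = 2 * M := by
      rw [hv, QuadraticAlgebra.im_add, DN.im_mul, DN.re_nat, DN.im_nat, DN.im_one]
      unfold sD
      ring
    unfold Nm
    rw [h1, h2]
    ring
  have h3f : ((3 * f : ℕ) : OO k t) ∣ v - 1 := by
    have e : v - 1 = (M : OO k t) * sD k t := by
      rw [hv]
      ring
    rw [e]
    refine Dvd.dvd.mul_right (Nat.cast_dvd_cast ?_) _
    rw [hM, pow_succ, mul_comm 3 f]
    exact mul_dvd_mul_left f (Dvd.intro_left _ rfl)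
  have hvH : HN f (n + 2) v := by
    refine ⟨⟨?_, 0, by simpa using h3f⟩, ?_⟩
    · refine cop_congr (a := (1 : OO k t)) ?_ (cop_one _)
      rw [← neg_sub]
      exact (dvd_neg).2 h3f
    · rw [hNv, add_sub_cancel_left]
      refine Dvd.dvd.mul_right ?_ _
      have e : (M : ℤ) ^ 2 = (3 : ℤ) ^ (n + 2) * ((f : ℤ) ^ 2 * 3 ^ n) := by
        rw [hM]
        push_cast
        ring
      rw [e]
      exact Dvd.intro _ rfl
  have hv3 : ((f * 3 ^ (n + 2) : ℕ) : OO k t) ∣ v ^ 3 - 1 := by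
    obtain ⟨s, hs⟩ := h3M
    have e : v ^ 3 - 1 = ((M * 3 : ℕ) : OO k t) * (sD k t + (M : OO k t) * sD k t ^ 2 +
        (M : OO k t) * (s : OO k t) * sD k t ^ 3) := by
      have e1 : (M : OO k t) = 3 * (s : OO k t) := by
        rw [hs]
        push_cast
        ring
      rw [hv]
      push_cast
      linear_combination ((M : OO k t) ^ 2 * sD k t ^ 3) * e1
    rw [hM3, e]
    exact Dvd.intro _ rfl
  have hex : ∀ h : T, ∃ h' : T, ∃ e : OO k t, Nm e = 1 ∧
      ((f * 3 ^ (n + 2) : ℕ) : OO k t) ∣ v * (h : OO k t) - e * (h' : OO k t) := by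
    intro h
    obtain ⟨h', hh', e, he, h3⟩ := hT.ex (v * h) (hmul v h hvH (hT.mem h h.2))
    exact ⟨⟨h', hh'⟩, e, he, h3⟩
  choose e w hw he using hex
  have h3 : ∀ h : T, e (e (e h)) = h := by
    intro h
    apply Subtype.ext
    symm
    apply hT.uni _ h.2 _ (e (e (e h))).2 (w h * (w (e h) * w (e (e h))))
      (by rw [Nm_mul, Nm_mul, hw, hw, hw, one_mul, one_mul])
    have e1 := Dvd.dvd.mul_left (he h) (v ^ 2)
    have e2 := Dvd.dvd.mul_left (he (e h)) (v * w h)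
    have e3 := Dvd.dvd.mul_left (he (e (e h))) (w h * w (e h))
    have e4 := Dvd.dvd.mul_right hv3 (h : OO k t)
    have e5 : (h : OO k t) - w h * (w (e h) * w (e (e h))) * ((e (e (e h)) : T) : OO k t) =
        (v ^ 2 * (v * h - w h * e h) + v * w h * (v * e h - w (e h) * e (e h)) +
          w h * w (e h) * (v * e (e h) - w (e (e h)) * e (e (e h)))) - (v ^ 3 - 1) * h := by ring
    rw [e5]
    exact dvd_sub (dvd_add (dvd_add e1 e2) e3) e4
  have hM60 : 3 ≤ M := by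
    have h4 : 3 ≤ M := Nat.le_of_dvd hMpos h3M
    exact h4
  have hfix : ∀ h : T, e h ≠ h := by
    intro h hh
    have e1 := he h
    rw [hh, ← sub_mul] at e1
    have hch := cop_isCoprime (hprop h (hT.mem h h.2)).2.2.1
    have e2 : ((f * 3 ^ (n + 2) : ℕ) : OO k t) ∣ v - w h := hch.symm.dvd_of_dvd_mul_right e1
    have e3 : ((M : ℕ) : OO k t) ∣ w h - 1 := by
      have e4 : ((M : ℕ) : OO k t) ∣ v - w h := dvd_trans (Nat.cast_dvd_cast ⟨3, hM3⟩) e2
      have e5 : ((M : ℕ) : OO k t) ∣ v - 1 := by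
        rw [hv, add_sub_cancel_left]
        exact Dvd.intro _ rfl
      have := dvd_sub e5 e4
      rwa [sub_sub_sub_cancel_left] at this
    have e6 : w h = 1 := (h7 k t M hMpos).2.2.2.2.2.2.2.2.1 (w h) hM60 (hw h) e3
    rw [e6, hM3, hv, add_sub_cancel_left, Nat.cast_mul] at e2
    have e7 : ((3 : ℕ) : OO k t) ∣ sD k t := (mul_dvd_mul_iff_left hM0).1 e2
    rw [nat_dvd_iff] at e7
    have e5 : ((3 : ℕ) : ℤ) ∣ 2 := e7.2
    omega
  have hfin := DT.H3.T3Aux.card_dvd e h3 hfix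
  rwa [Fintype.card_coe] at hfin

end Pool.Agent.DM.H3
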