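import Pool.Agent.Lib.DM.H3.Spec

/-!
# Theorem DM, part H, module `Uni`: units (author helper9)
-/

set_option autoImplicit false

open scoped Pointwise nonZeroDivisors

noncomputable section

namespace Pool.Agent.DM.H3

open Pool.Agent.MuZ Pool.Agent.FW NumberField IsDedekindDomain
open Pool.Agent.DI (io ofC io_inj exists_io io_ofC ofC_io VP MP UP TP ex)
open Pool.Agent.DN
open Pool.Agent.DT (kap cbr kp S_pKa S_pTH S_pKap S_pLeg Thnp)
open Pool.Agent.DT.H3 (IsLg lg Jc S_hCb S_hZt S_hAlR)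
open Pool.Agent.DS.H3 (rd pL S_hLa S_hNmK S_hTra pri_dvd)

namespace UniAux

theorem ndvd_of_coprime {p : ℕ} (hp : 2 ≤ p) {a : ℤ} (h : IsCoprime a (p : ℤ)) : ¬ (p : ℤ) ∣ a := by
  intro hd
  have h2 : IsUnit (p : ℤ) := h.symm.isUnit_of_dvd' dvd_rfl hd
  rw [Int.isUnit_iff] at h2
  omega

end UniAux

open UniAux in
theorem tUni (h2 : S_D5) (h3 : S_hHN) (h4 : S_hDg) (h5 : S_hGd) : S_hUni := by
  intro k t _ f N m T b l la r hD
  have hf : Fok f := hD.hf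
  have hm6 : PrI m 6 := pri_dvd (by norm_num) hD.m30
  have hb6 : PrI b 6 := pri_dvd (by norm_num) hD.g30.cop
  obtain ⟨-, hmul, -, hprop⟩ := h3 k t f N hf hD.N1
  obtain ⟨-, -, -, hl2, hl3, -⟩ := h4 k t f l la r hD.toDatL
  have ot : ∀ h : OO k t, HN f N h → ¬ (2 : ℤ) ∣ Nm h := by
    intro h hh
    have := ndvd_of_coprime (p := 2) le_rfl (hprop h hh).2.2.2.1
    exact_mod_cast this
  have pt : ∀ h : OO k t, HN f N h → ¬ (3 : ℤ) ∣ Nm h := by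
    intro h hh
    have := ndvd_of_coprime (p := 3) (by norm_num) (hprop h hh).2.2.2.2.1
    exact_mod_cast this
  have key : ∀ h ∈ T, ∀ j : ℕ, Gd m b (Tz f N h + pL la j) ∧
      Gd m b (Tz f N h) ∧ Tz f N h ∉ Lam (sp la * m * b) := by
    intro h hh j
    have hH := hD.hT.mem h hh
    obtain ⟨g1, g2, g3, -⟩ := h5 k t f N m b h la j hf hD.N1 hD.hm.ne hm6 hD.hb0 hb6 (ot h hH)
      (pt h hH) hl2 hl3
    exact ⟨g1, g2, g3⟩
  have key2 : ∀ h ∈ T, Gd m b (Tz f N (la * h)) := by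
    intro h hh
    have hH := hmul la h hD.hHN (hD.hT.mem h hh)
    exact (h5 k t f N m b (la * h) la 0 hf hD.N1 hD.hm.ne hm6 hD.hb0 hb6 (ot _ hH) (pt _ hH)
      hl2 hl3).2.1
  have hUP : ∀ Q : Ideal ZZ, Npr Q → ∀ z : ℂ, Gd m b z → UP Q (Theta m b z) := fun Q hQ z hz =>
    h2 k t m b hD.hm.ne hD.g30 hD.m30 Q hQ z hz.1 (hz.2 Q hQ)
  refine ⟨fun h hh => ⟨(key h hh 0).2.1, key2 h hh, fun j => (key h hh j).1,
    (key h hh 0).2.2⟩, fun Q hQ => ?_⟩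
  have : Q.IsPrime := hQ.1
  refine ⟨fun i => ?_, ?_, fun h hh => ⟨hUP Q hQ _ (key h hh 0).2.1, hUP Q hQ _ (key2 h hh),
    fun j => hUP Q hQ _ (key h hh j).1⟩⟩
  · exact DI.UP.prod _ _ fun h hh => DI.UP.prod _ _ fun j _ => hUP Q hQ _ (key h hh j).1
  · exact DI.UP.prod _ _ fun h hh => hUP Q hQ _ (key h hh 0).2.1

end Pool.Agent.DM.H3
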