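import Pool.Agent.Lib.DM.H3.Spec

/-!
# Theorem DM, part H, module `Unr`: `h` is unramified outside `3 λ` (author helper9)
-/

set_option autoImplicit false

open scoped Pointwise nonZeroDivisors

noncomputable section

namespace Pool.Agent.DM.H3

open Pool.Agent.MuZ Pool.Agent.FW NumberField IsDedekindDomain
open Pool.Agent.DI (io ofC io_inj exists_io io_ofC ofC_io VP MP UP TP ex)
open Pool.Agent.DN
open Pool.Agent.DT (kap cbr kp S_pKa S_pTH S_pKap S_pLeg Thnp)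
open Pool.Agent.DT.H3 (IsLg lg Jc S_hCb S_hZt S_hAlR)
open Pool.Agent.DS.H3 (rd pL S_hLa S_hNmK S_hTra pri_dvd)

theorem tUnr (h3 : S_hIn) (h5 : S_hCb) (h6 : S_hRdm) (h8 : S_hDg) (h9 : S_hFix) : S_hUnr := by
  intro k t _ f N l la r hN hD h hh P hP hP3 hPla ι hι hιL
  have hpos : 0 < f * 3 ^ N * l := Nat.mul_pos (fpos hD.hf N) hD.hl.pos
  obtain ⟨-, -, -, -, -, x4, -⟩ := h9 k t f N hD.hf hN
  obtain ⟨a, haN, ha⟩ := x4 ι hιL l hD.hl.pos
  obtain ⟨r1, r2, r3, r4, r5, r6, r7, -, -, r10⟩ := h6 k t f l la r hD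
  obtain ⟨g1, g2, g3, -⟩ := h8 k t f l la r hD
  have : Fact l.Prime := ⟨hD.hl⟩
  obtain ⟨sq0, sq1, sq2, -⟩ := h5 l hD.hl hD.hl3
  have hlg : lg l (rd r a) = 0 := by
    obtain ⟨e, he, hea⟩ := h3 k t f N hD.hf hN P hP hP3 ι hι hιL l a (sp la) hD.hl.pos haN ha
      g1.2.1 (g3 _ (Dvd.intro_left _ rfl)) (fun h10 => hPla ((g2 P hP).2 h10))
    have e6 : rd r (e * a - 1) = 0 := (hD.hker _).2 (Ideal.mem_span_singleton.1 hea)
    rw [r3, r6, r1, sub_eq_zero] at e6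
    obtain ⟨he0, hel⟩ := r10 e he
    have ha0 : rd r a ≠ 0 := by
      intro h0
      rw [h0, mul_zero] at e6
      exact zero_ne_one e6
    have e7 := sq0 _ _ he0 ha0
    rw [e6, sq1, hel, zero_add] at e7
    exact e7.symm
  rw [hh ι hιL _ a hpos dvd_rfl haN ha]
  exact hlg

end Pool.Agent.DM.H3
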