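import Pool.Agent.Lib.DN.O.All
import Pool.Agent.Lib.DN.B.All
import Pool.Agent.Lib.FW.AsmFW2
import Pool.Agent.Lib.DT.T.Fl
import Pool.Agent.Lib.DT.T.H9
import Pool.Agent.Lib.DT.T.Ka
import Pool.Agent.Lib.DT.T.Kap
import Pool.Agent.Lib.DT.T.Leg
import Pool.Agent.Lib.DT.T.Qu
import Pool.Agent.Lib.DT.T.Ra
import Pool.Agent.Lib.DT.T.Rel
import Pool.Agent.Lib.DT.T.Sel
import Pool.Agent.Lib.DT.T.TH
import Pool.Agent.Lib.DT.T.Un
import Pool.Agent.Lib.DT.H3.AlR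
import Pool.Agent.Lib.DT.H3.Cb
import Pool.Agent.Lib.DT.H3.Zt
import Pool.Agent.Lib.DS.H3.La
import Pool.Agent.Lib.DS.H3.NmK
import Pool.Agent.Lib.DS.H3.Tra
import Pool.Agent.Lib.DM.H3.Asm
import Pool.Agent.Lib.DM.H3.Cng
import Pool.Agent.Lib.DM.H3.Cst
import Pool.Agent.Lib.DM.H3.Dg
import Pool.Agent.Lib.DM.H3.Eps
import Pool.Agent.Lib.DM.H3.Fix
import Pool.Agent.Lib.DM.H3.Gd
import Pool.Agent.Lib.DM.H3.HN
import Pool.Agent.Lib.DM.H3.Hom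
import Pool.Agent.Lib.DM.H3.In
import Pool.Agent.Lib.DM.H3.Inr
import Pool.Agent.Lib.DM.H3.KK
import Pool.Agent.Lib.DM.H3.Lat
import Pool.Agent.Lib.DM.H3.Nrm
import Pool.Agent.Lib.DM.H3.Pri
import Pool.Agent.Lib.DM.H3.Ram
import Pool.Agent.Lib.DM.H3.Rdm
import Pool.Agent.Lib.DM.H3.Res
import Pool.Agent.Lib.DM.H3.T3
import Pool.Agent.Lib.DM.H3.TP
import Pool.Agent.Lib.DM.H3.Uni
import Pool.Agent.Lib.DM.H3.Unr

/-!
# Theorem DM, part H: Theorem H (author helper9)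

`aH : HIn → S_H`, for all `[Nsp n t]`. The inputs `HIn` are the statements of the other parts.
-/

set_option autoImplicit false

namespace Pool.Agent.DM.H3

open Pool.Agent.MuZ Pool.Agent.FW Pool.Agent.DN
open Pool.Agent.DT (S_pTH S_pKap S_pLeg pTH pQu pSel pFl pKa pRel pH9 pUn pRa pKap pLeg)

/-- The statements of the other parts used in part H. -/
structure HIn : Prop where
  gq : DS.S_GQB
  d3 : DS.S_D3
  d4 : DS.S_D4
  d5 : S_D5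
  d6 : S_D6
  d7 : S_D7
  d8 : S_D8
  e1 : DS.S_E1
  e2 : DS.S_E2
  e4 : DS.S_E4l
  e6 : DS.S_E6
  e8 : DS.S_E8
  e10 : S_E10
  gm : S_GM
  g3 : S_G3

/-- **Part H (Theorem H).** -/
theorem aH (I : HIn) : S_H := by
  have aCb := DT.H3.tCb
  have aRdm := tRdm aCb
  have aHN := tHN
  have aTP := tTP aHN
  have aT3 := tT3 aO7 aHN
  have aPri := tPri aHN
  have aDg := tDg aO2 aRdm
  have aLa := DS.H3.tLa aO2
  have aLat := tLat aO6 aRdm
  have aGd := tGd aO6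
  have aZt := DT.H3.tZt pKa
  have aFix := tFix aO7 I.e1 I.gm aPri aZt
  have aEps := tEps aO2 aO6 I.e10 I.d8 aCb aRdm aHN aTP aLat
  have aUni := tUni I.d5 aHN aDg aGd
  have aCst := tCst aB14 aO2 aO6 I.d7 I.d8 I.e10 aRdm aHN aDg aLat aFix aUni
  have aNrm := tNrm I.d8 I.g3 aCb aTP
  have aCng := tCng aO6 I.d3 I.d6 aCb aDg aLat aUni
  have aHom := tHom aO6 aO7 I.e1 I.e8 aCb aRdm aFix
  have aIn := tIn aO2 aO6 aO7 I.e4 I.e1 I.e6 aFix aHN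
  have aUnr := tUnr aIn aCb aRdm aDg aFix
  have aInr := tInr I.gm aZt aDg aFix
  have aTra := DS.H3.tTra DS.H3.tNmK
  have aRam := tRam aB1 aB7 I.d4 aO6 aCb aRdm aDg aLat aFix aIn aHN
  have aRes := tRes aO2 aO6 I.e2 I.gq aLa aPri aT3 DT.H3.tAlR aFix aEps aUni aCst aNrm aCng aHom aUnr
    aInr aTra aRam
  have aKap : S_pKap := pKap pH9 pUn pRa
  have aLeg : S_pLeg := pLeg pKa
  have aTH : S_pTH := pTH (pQu Pool.Agent.FW.rec (pSel pFl) pKa pRel) pKa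
  have aKK := tKK I.g3 aZt aFix aKap aLeg aRes
  exact tAsm I.g3 aZt aFix aTH aKK

end Pool.Agent.DM.H3
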