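import Pool.Agent.Lib.DM.B.All
import Pool.Agent.Lib.DM.D.D5
import Pool.Agent.Lib.DM.D.D6
import Pool.Agent.Lib.DM.D.D7
import Pool.Agent.Lib.DM.D.D8
import Pool.Agent.Lib.DM.E.All
import Pool.Agent.Lib.DM.E.E4bl
import Pool.Agent.Lib.DM.G.GMm
import Pool.Agent.Lib.DM.G.Two
import Pool.Agent.Lib.DM.H3.All
import Pool.Agent.Lib.DN.B.All
import Pool.Agent.Lib.DN.O.All
import Pool.Agent.Lib.DS.E.AllZ
import Pool.Agent.Lib.DS.E.E4l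

/-!
# Theorem DM (`3` not split), part H: `S_H`, no hypotheses (author helper9)
-/

set_option autoImplicit false

namespace Pool.Agent.DM.H3

open Pool.Agent.DN

theorem zE4l : DS.S_E4l := DS.sE4l aL3 DN.aB1 DN.aB7 DS.zR1 DS.zGQ DS.zD1 DS.zLeg
theorem zD5 : S_D5 := sD5 DS.zR1 DS.zGQ DS.zD1 DS.zLgK
theorem zD6 : S_D6 := sD6 DS.zXOm DS.zR1 DS.zD1 DS.yD3
theorem zD7 : S_D7 := sD7 DS.zXOm DS.zR1 DS.zGQ DS.zD1 DS.yD3
theorem zD8 : S_D8 := sD8 aB1 zR1 DS.zR1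
theorem zE10 : S_E10 := DM.zE10 DS.zD1
theorem zGM : S_GM := G.aGM DS.zE1 DS.zE6 DS.zE8
theorem zG3 : S_G3 := G.aG3 zD5 zD7 zD8 DS.zE1 zE10

theorem zHIn : HIn where
  gq := DS.zGQB
  d3 := DS.yD3
  d4 := DS.yD4
  d5 := zD5
  d6 := zD6
  d7 := zD7
  d8 := zD8
  e1 := DS.zE1
  e2 := DS.zE2
  e4 := zE4l
  e6 := DS.zE6
  e8 := DS.zE8
  e10 := zE10
  gm := zGM
  g3 := zG3

/-- **Part H (Theorem H) of Theorem DM.** -/
theorem zH : S_H := aH zHIn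

end Pool.Agent.DM.H3
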