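import Pool.Agent.Lib.DM.H3.Spec

/-!
# Theorem DM, part H, module `Hom`: the cubic character (author helper9)
-/

set_option autoImplicit false

open scoped Pointwise nonZeroDivisors

noncomputable section

namespace Pool.Agent.DM.H3

open Pool.Agent.MuZ Pool.Agent.FW NumberField IsDedekindDomain
open Pool.Agent.DI (io ofC io_inj exists_io io_ofC ofC_io VP MP UP TP ex)
open Pool.Agent.DN
open Pool.Agent.DT (kap cbr kp S_pKa S_pTH S_pKap S_pLeg Thnp)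
open Pool.Agent.DT.H3 (IsLg lg Jc S_hCb S_hZt S_hAlR)
open Pool.Agent.DS.H3 (rd pL S_hLa S_hNmK S_hTra pri_dvd)

theorem tHom (h1 : S_O6) (h2 : S_O7) (h3 : DS.S_E1) (h4 : DS.S_E8) (h5 : S_hCb) (h6 : S_hRdm)
    (h8 : S_hFix) : S_hHom := by
  classical
  intro k t _ f N l la r hN D
  obtain ⟨m1, m2, m3, m4, m5, m6, m7, -, m9, m10⟩ := h6 k t f l la r D
  have : Fact l.Prime := ⟨D.hl⟩
  obtain ⟨-, -, -, o6, -⟩ := h1 k t
  obtain ⟨n, hn⟩ : ∃ n : ℕ, n = f * 3 ^ N * l := ⟨_, rfl⟩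
  have hM : 0 < n := by
    rw [hn]
    exact Nat.mul_pos (fpos D.hf N) D.hl.pos
  have hn15 : 15 ∣ n := by
    rw [hn]
    exact d15' D.hf hN l
  obtain ⟨p1, p2, p3, p4, -, p6, p7, p8, -, -⟩ := h2 k t n hM
  obtain ⟨-, e2, e3, e4, e5⟩ := h3 k t n hM hn15
  obtain ⟨s1, s2, s3, -, -, -, -, -, -, -⟩ := h5 l D.hl D.hl3
  obtain ⟨-, -, x3, -, -, x6, -⟩ := h8 k t f N D.hf hN
  have hGK : ∀ τ ∈ (Mn k t f N).fixingSubgroup, τ ∈ GK k t := fun τ hτ => ((x3 τ).1 hτ).1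
  have hex : ∀ τ ∈ (Mn k t f N).fixingSubgroup, ∃ a : OO k t, Psi τ n (sp a) := by
    intro τ hτ
    obtain ⟨a, -, ha⟩ := x6 τ hτ l D.hl.pos
    rw [← hn] at ha
    exact ⟨a, ha⟩
  have hcM : ∀ (τ : Gal(Om/ℚ)) (a : OO k t), Psi τ n (sp a) → Cop a n := by
    intro τ a ha
    exact (o6 n a hM).1 (pri_dvd (Dvd.intro_left _ rfl) ha.cop)
  have hne : ∀ (τ : Gal(Om/ℚ)) (a : OO k t), Psi τ n (sp a) → rd r a ≠ 0 :=
    fun τ a ha => m7 a (cop_dvd (hcM τ a ha) (by rw [hn]; exact Dvd.intro_left _ rfl))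
  have h0 : ∀ (τ : Gal(Om/ℚ)) (a : OO k t), Psi τ n (sp a) → a ≠ 0 := by
    intro τ a ha h10
    exact ha.ne (Ideal.span_singleton_eq_bot.2 h10)
  have hz : ∀ x : OO k t, (n : OO k t) ∣ x → rd r x = 0 := by
    intro x hx
    refine (D.hker x).2 (m9.trans (dvd_trans ?_ hx))
    rw [hn]
    exact Nat.cast_dvd_cast (Dvd.intro_left (f * 3 ^ N) rfl)
  have hrd : ∀ (τ : Gal(Om/ℚ)) (a a' : OO k t), Psi τ n (sp a) →
      Psi τ n (sp a') → lg l (rd r a) = lg l (rd r a') := by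
    intro τ a a' ha ha'
    have h10 := e2 τ _ _ ha ha'
    obtain ⟨e, he, h11⟩ := (p8 a a' (h0 τ a ha) (h0 τ a' ha') (hcM τ a ha) (hcM τ a' ha')).1 h10
    have h12 := hz _ h11
    rw [m3, sub_eq_zero, m1] at h12
    rw [h12, s1 _ _ (m10 e he).1 (hne τ a' ha'), (m10 e he).2, zero_add]
  obtain ⟨hh, hdef⟩ : ∃ hh : Gal(Om/ℚ) → ZMod 3, hh = fun τ =>
    if h : τ ∈ (Mn k t f N).fixingSubgroup then lg l (rd r (hex τ h).choose) else 0 := ⟨_, rfl⟩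
  have hval : ∀ τ ∈ (Mn k t f N).fixingSubgroup, ∀ a : OO k t, Psi τ n (sp a) →
      hh τ = lg l (rd r a) := by
    intro τ hτ a ha
    rw [hdef]
    simp only [dif_pos hτ]
    exact hrd τ _ _ (hex τ hτ).choose_spec ha
  refine ⟨hh, ⟨?_, ?_, ?_, ?_⟩, ?_⟩
  · intro g hg
    rw [hdef]
    exact dif_neg hg
  · intro g hg g' hg'
    obtain ⟨a, ha⟩ := hex g hg
    obtain ⟨b, hb⟩ := hex g' hg'
    have hab := e4 _ _ _ _ ha hb
    have e' : sp a * sp b = sp (a * b) := Ideal.span_singleton_mul_span_singleton a b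
    rw [e'] at hab
    rw [hval g hg a ha, hval g' hg' b hb, hval (g * g') (mul_mem hg hg') (a * b) hab, m1]
    exact s1 _ _ (hne g a ha) (hne g' b hb)
  · have htop : (⊤ : Ideal (OO k t)) ≠ ⊥ := top_ne_bot
    have hpt : PrI (⊤ : Ideal (OO k t)) n := top_sup_eq _
    have hE := h4 k t n (fun c => Ray n c ⊤) hM hn15 (p1 ⊤)
      (fun a ha => ⟨(p6 a ⊤ ha).1.2 htop, (p6 a ⊤ ha).2.2 hpt⟩)
      (fun a a' ha haa' => p3 _ _ _ (p2 _ _ haa') ha)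
      (fun a a' ha ha' => by
        have h10 := p4 _ _ _ _ ha ha'
        rwa [Ideal.mul_top] at h10)
    obtain ⟨hfin, -, hEm⟩ := hE
    refine ⟨⟨(FixI n (fun c : Ideal (OO k t) => Ray n c ⊤)).fixingSubgroup,
      IntermediateField.fixingSubgroup_isOpen _⟩, fun g hg hgE => ?_⟩
    obtain ⟨a, ha⟩ := hex g hg
    have h10 : Ray n (sp a) ⊤ :=
      (hEm g (hGK g hg) _ ha).1 ((IntermediateField.mem_fixingSubgroup_iff _ _).1 hgE)
    have h11 := e3 _ _ _ ha h10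
    rw [← Ideal.span_singleton_one] at h11
    rw [hval g hg 1 h11, m6, s2]
  · intro Λ hΛ
    exact absurd hΛ (Set.notMem_empty Λ)
  · intro τ hτ n' a hn' hle _ ha
    rw [← hn] at hle
    exact hval τ hτ a ((h3 k t n' hn' (hn15.trans hle)).2.2.2.2 τ _ _ ha hle hn15)

end Pool.Agent.DM.H3
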