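import Pool.Agent.Lib.DN.Base
import Pool.Agent.Lib.DS.E.E4l
import Pool.Agent.Lib.DS.H3.Spec
import Pool.Agent.Lib.DT.H3.Spec
import Pool.Agent.Lib.DM.IfaceG

set_option autoImplicit false

/-!
# Theorem DM (`p = 3`, not split), part H (author helper9): Thaine's argument

`F = Mn k t f N`, it contains `zet 3`; `Q` a prime of `ZZ` over the prime number `l = 1 mod 3`, `φ ∈ Gal(Om/F)` with
`φ x ≡ x ^ l mod Q`. The prime ideal of `O` below `Q` is principal (it is the Artin symbol of `φ`, in the group `HPN`),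
`= (λ)`, `Nm λ = l`, `λ ∈ H_N`. `h : Gal(Om/F) → F_3` is `h τ = lg (a mod λ)` if `τ = Psi (a)`, `a ∈ H_N`.
`ε_i = ∏_{h ∈ T} ∏_{j ∈ Jc l i} Θ(b, h/(f 3^N) + j/λ)`, `τ ε_i = ε_(i + h τ)`, `ε_0 ε_1 ε_2 = C ^ |T|` with the constant `C` of
the distribution relation, `3 ∣ |T|` (`2 ≤ N`), `w = ε_0 / C ^ (|T|/3)`.

Text of `DT/H3/Spec.lean` for integral moduli (`S_hX` is proved in the module `DM/H3/X.lean`). `lg`, `Jc`, `S_hCb`, `S_hZt`, `S_hAlR`: those of `DT/H3`; `rd`, `pL`,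
`S_hLa`, `S_hNmK`, `S_hTra`: those of `DS/H3`. `T` is a system of representatives modulo the units of `O` (for `K = ℚ(√-3)`; otherwise all units in `H_N` are `1`);
`l = 1` modulo `9` (from `2 ≤ N`), so the units are cubes modulo `λ`. Inertia at the primes not above `3`: `S_hIn`, from `DS.S_E4l`.
-/

open scoped Pointwise nonZeroDivisors

noncomputable section

namespace Pool.Agent.DM.H3

open Pool.Agent.MuZ Pool.Agent.FW NumberField IsDedekindDomain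
open Pool.Agent.DI (io ofC io_inj exists_io io_ofC ofC_io VP MP UP TP ex)
open Pool.Agent.DN
open Pool.Agent.DT (kap cbr kp S_pKa S_pTH S_pKap S_pLeg Thnp)
open Pool.Agent.DT.H3 (IsLg lg Jc S_hCb S_hZt S_hAlR)
open Pool.Agent.DS.H3 (rd pL S_hLa S_hNmK S_hTra pri_dvd)

variable {k t : ℕ}

/-! ## Small lemmas (complete) -/

theorem d60 {f : ℕ} (hf : Fok f) {N : ℕ} (hN : 1 ≤ N) : 60 ∣ f * 3 ^ N :=
  mul_dvd_mul hf.dvd (dvd_pow_self 3 (by omega))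

theorem d15 {f : ℕ} (hf : Fok f) {N : ℕ} (hN : 1 ≤ N) : 15 ∣ f * 3 ^ N :=
  dvd_trans (by norm_num) (d60 hf hN)

theorem d60' {f : ℕ} (hf : Fok f) {N : ℕ} (hN : 1 ≤ N) (M : ℕ) : 60 ∣ f * 3 ^ N * M := (d60 hf hN).mul_right _

theorem d15' {f : ℕ} (hf : Fok f) {N : ℕ} (hN : 1 ≤ N) (M : ℕ) : 15 ∣ f * 3 ^ N * M := (d15 hf hN).mul_right _

theorem d30 {f : ℕ} (hf : Fok f) : 30 ∣ 3 * f :=
  dvd_trans (by norm_num) (mul_dvd_mul_left 3 hf.dvd)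

theorem fpos {f : ℕ} (hf : Fok f) (N : ℕ) : 0 < f * 3 ^ N := Nat.mul_pos hf.pos (pow_pos (by norm_num) N)

theorem g30_of {f : ℕ} (hf : Fok f) {b : Ideal (OO k t)} (hb0 : b ≠ ⊥) (hb : PrI b (3 * f)) : G30 b :=
  ⟨hb0, pri_dvd (d30 hf) hb⟩

theorem m30_of {f : ℕ} {m : Ideal (OO k t)} (hm : FM f m) : PrI m 30 := pri_dvd (d30 hm.toFok) hm.prm

theorem g15_of30 {b : Ideal (OO k t)} (hb : G30 b) : G15 b := ⟨hb.ne, pri_dvd (by norm_num) hb.cop⟩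

theorem g15_top : G15 (⊤ : Ideal (OO k t)) := ⟨top_ne_bot, top_sup_eq _⟩

/-! ## Definitions -/

/-- The point `x / (f 3 ^ N)`. -/
def Tz (f N : ℕ) (x : OO k t) : ℂ := toC x / (f * 3 ^ N : ℕ)

/-- The condition on `z` under which `Θ(b, z)` is a unit at all primes (hypothesis of `S_D5`, `S_D6`). -/
def Gd (m b : Ideal (OO k t)) (z : ℂ) : Prop := Tor k t z ∧ ∀ Q : Ideal ZZ, Npr Q →
  ∀ u ∈ Lam (m * b), ¬ Qp Q b (z + u)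

/-- `ε_i = ∏_{h ∈ T} ∏_{j ∈ Jc l i} Θ(b, h/(f 3^N) + j/λ)`. -/
def epq (f N : ℕ) (m : Ideal (OO k t)) (T : Finset (OO k t)) (b : Ideal (OO k t)) (l : ℕ)
    (la : OO k t) (i : ZMod 3) : Om :=
  ∏ h ∈ T, ∏ j ∈ Jc l i, Theta m b (Tz f N h + pL la j)

/-- `λ` is a prime element of norm `l`, `l = 1 mod 9`, `l` prime to `f`, `r` the image of `w`
modulo `λ`. -/
structure DatL (f l : ℕ) (la : OO k t) (r : ZMod l) : Prop where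
  hf : Fok f
  hl : l.Prime
  hl9 : l % 9 = 1
  hlf : l.Coprime f
  hla : Nm la = l
  hr : r ^ 2 = t * r - k
  hker : ∀ x : OO k t, rd r x = 0 ↔ la ∣ x
  hG : ∀ P : Ideal ZZ, Npr P → MP P (toO la) → GQ k t P

/-- The data. -/
structure Dat (f N : ℕ) (m : Ideal (OO k t)) (T : Finset (OO k t)) (b : Ideal (OO k t)) (l : ℕ)
    (la : OO k t) (r : ZMod l) : Prop extends DatL f l la r where
  hN : 2 ≤ N
  hm : FM f m
  hT : IsRep f N T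
  hb0 : b ≠ ⊥
  hb : PrI b (3 * f)
  hlm : PrI m l
  hlb : PrI b l
  hHN : HN f N la

theorem DatL.hl3 {f l : ℕ} {la : OO k t} {r : ZMod l} (D : DatL f l la r) : l % 3 = 1 := by
  have := D.hl9
  omega

theorem DatL.two {f l : ℕ} {la : OO k t} {r : ZMod l} (D : DatL f l la r) : l ≠ 2 := by
  rintro rfl
  have := D.hl3
  omega

theorem DatL.three {f l : ℕ} {la : OO k t} {r : ZMod l} (D : DatL f l la r) : l ≠ 3 := by
  rintro rfl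
  have := D.hl3
  omega

theorem DatL.cop30 {f l : ℕ} {la : OO k t} {r : ZMod l} (D : DatL f l la r) : l.Coprime 30 := by
  have h1 : l.Coprime 20 := D.hlf.coprime_dvd_right D.hf.dvd
  have h2 : l.Coprime 3 := (Nat.coprime_primes D.hl Nat.prime_three).2 D.three
  have h3 : l.Coprime (20 * 3) := Nat.Coprime.mul_right h1 h2
  exact h3.coprime_dvd_right (by norm_num)

theorem DatL.copM {f l : ℕ} {la : OO k t} {r : ZMod l} (D : DatL f l la r) (N : ℕ) :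
    l.Coprime (f * 3 ^ N) :=
  Nat.Coprime.mul_right D.hlf
    (((Nat.coprime_primes D.hl Nat.prime_three).2 D.three).pow_right N)

theorem Dat.g30 {f N : ℕ} {m : Ideal (OO k t)} {T : Finset (OO k t)} {b : Ideal (OO k t)} {l : ℕ}
    {la : OO k t} {r : ZMod l} (D : Dat f N m T b l la r) : G30 b := g30_of D.hf D.hb0 D.hb

theorem Dat.m30 {f N : ℕ} {m : Ideal (OO k t)} {T : Finset (OO k t)} {b : Ideal (OO k t)} {l : ℕ}
    {la : OO k t} {r : ZMod l} (D : Dat f N m T b l la r) : PrI m 30 := m30_of D.hm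

theorem Dat.N1 {f N : ℕ} {m : Ideal (OO k t)} {T : Finset (OO k t)} {b : Ideal (OO k t)} {l : ℕ}
    {la : OO k t} {r : ZMod l} (D : Dat f N m T b l la r) : 1 ≤ N := le_trans (by norm_num) D.hN

/-- The property of the homomorphism `h`. -/
def IsH (k t f N l : ℕ) (r : ZMod l) (h : Gal(Om/ℚ) → ZMod 3) : Prop :=
  ∀ τ ∈ (Mn k t f N).fixingSubgroup, ∀ (M : ℕ) (a : OO k t), 0 < M → f * 3 ^ N * l ∣ M → HN f N a →
    Psi τ M (sp a) → h τ = lg l (rd r a)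

/-! ## Elementary statements -/

/-- (Module `Rdm`) **The reduction modulo `λ`.** In the last part `e` is a unit of `O`. -/
def S_hRdm : Prop := ∀ (k t : ℕ) [Nsp k t] (f l : ℕ) (la : OO k t) (r : ZMod l), DatL f l la r →
  (∀ x y : OO k t, rd r (x * y) = rd r x * rd r y) ∧
  (∀ x y : OO k t, rd r (x + y) = rd r x + rd r y) ∧
  (∀ x y : OO k t, rd r (x - y) = rd r x - rd r y) ∧ (∀ x : OO k t, rd r (-x) = - rd r x) ∧
  (∀ n : ℕ, rd r (n : OO k t) = n) ∧ rd r (1 : OO k t) = 1 ∧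
  (∀ a : OO k t, Cop a l → rd r a ≠ 0) ∧ la * cjO la = (l : OO k t) ∧ la ∣ (l : OO k t) ∧
  ∀ e : OO k t, Nm e = 1 → rd r e ≠ 0 ∧ lg l (rd r e) = 0

/-- (Module `HN`) **The group `H_N`.** -/
def S_hHN : Prop := ∀ (k t : ℕ) [Nsp k t] (f N : ℕ), Fok f → 1 ≤ N →
  HN f N (1 : OO k t) ∧ (∀ a b : OO k t, HN f N a → HN f N b → HN f N (a * b)) ∧
  (∀ a b : OO k t, HN f N a → ((f * 3 ^ N : ℕ) : OO k t) ∣ a - b → HN f N b) ∧
  ∀ a : OO k t, HN f N a → a ≠ 0 ∧ Cop a (3 * f) ∧ Cop a (f * 3 ^ N) ∧ Cop a 2 ∧ Cop a 3 ∧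
    (3 : OO k t) ∣ a ^ 3 - 1

/-- (Module `TP`) **Permutation of `T`.** -/
def S_hTP : Prop := ∀ (k t : ℕ) [Nsp k t] (f N : ℕ) (T : Finset (OO k t)) (a : OO k t)
  (G : OO k t → Om), Fok f → 1 ≤ N → IsRep f N T → HN f N a →
  (∀ e x : OO k t, Nm e = 1 → G (e * x) = G x) →
  (∀ x y : OO k t, G (x + ((f * 3 ^ N : ℕ) : OO k t) * y) = G x) → ∏ h ∈ T, G (a * h) = ∏ h ∈ T, G h

/-- (Module `T3`) **`3` divides `|T|`.** -/
def S_hT3 : Prop := ∀ (k t : ℕ) [Nsp k t] (f N : ℕ) (T : Finset (OO k t)), Fok f → 2 ≤ N →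
  IsRep f N T → 3 ∣ T.card

/-- (Module `Pri`) **The classes in `HPN` are principal.** -/
def S_hPri : Prop := ∀ (k t : ℕ) [Nsp k t] (f N : ℕ), Fok f → 1 ≤ N → ∀ c : Ideal (OO k t),
  HPN f N c ↔ ∃ γ : OO k t, c = sp γ ∧ HN f N γ

/-- (Module `Dg`) **The prime ideal `(λ)`.** -/
def S_hDg : Prop := ∀ (k t : ℕ) [Nsp k t] (f l : ℕ) (la : OO k t) (r : ZMod l), DatL f l la r →
  Deg1 (sp la) l ∧ (∀ Q : Ideal ZZ, Npr Q → (MP Q (toO la) ↔ Abv Q (sp la))) ∧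
  (∀ M : ℕ, l ∣ M → sp ((M : ℕ) : OO k t) ≤ sp la) ∧ (¬ (2 : ℤ) ∣ Nm la) ∧ (¬ (3 : ℤ) ∣ Nm la) ∧
  ∀ Q : Ideal ZZ, Npr Q → MP Q (toO la) → (l : ZZ) ∈ Q ∧ ¬ MP Q 3 ∧ ¬ MP Q 2 ∧
    ∀ M : ℕ, l.Coprime M → (M : ZZ) ∉ Q

/-- (Module `Lat`) **The points `j/λ`.** -/
def S_hLat : Prop := ∀ (k t : ℕ) [Nsp k t] (f l : ℕ) (la : OO k t) (r : ZMod l), DatL f l la r →
  (∀ (a : OO k t) (j j' : ℕ), (j' : ZMod l) = rd r a * j →
    ∃ x : OO k t, toC a * pL la j = pL la j' + toC x) ∧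
  (∀ j : ℕ, pL la j = toC ((j : OO k t) * cjO la) / l) ∧
  (∀ j : ℕ, j ≤ l → ∃ x : OO k t, pL la (l - j) = - pL la j + toC x) ∧
  (∀ j : ℕ, Tor k t (pL la j)) ∧ Set.InjOn (pL la) (Finset.range l : Set ℕ) ∧
  ∀ b : Ideal (OO k t), b ≠ ⊥ → PrI b l →
    (∀ j : ℕ, 0 < j → j < l → pL la j ∈ Lam (sp la * b) ∧ pL la j ∉ Lam b) ∧
    IsSys (sp la) b ((Finset.range l).image (pL la))

/-- (Module `Gd`) **Good points.** -/
def S_hGd : Prop := ∀ (k t : ℕ) [SqN k t] (f N : ℕ) (m b : Ideal (OO k t)) (x la : OO k t) (j : ℕ),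
  Fok f → 1 ≤ N → m ≠ ⊥ → PrI m 6 → b ≠ ⊥ → PrI b 6 → ¬ (2 : ℤ) ∣ Nm x →
  ¬ (3 : ℤ) ∣ Nm x → ¬ (2 : ℤ) ∣ Nm la → ¬ (3 : ℤ) ∣ Nm la →
  Gd m b (Tz f N x + pL la j) ∧ Gd m b (Tz f N x) ∧
    Tz f N x ∉ Lam (sp la * m * b) ∧ Tz f N x + pL la j ∉ Lam (sp la * m * b)

/-- (Module `Fix`) **Galois theory of `F = Mn k t f N`.** -/
def S_hFix : Prop := ∀ (k t : ℕ) [Nsp k t] (f N : ℕ), Fok f → 1 ≤ N →
  FiniteDimensional ℚ (Mn k t f N) ∧ DT.zet 3 ∈ Mn k t f N ∧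
  (∀ τ : Gal(Om/ℚ), τ ∈ (Mn k t f N).fixingSubgroup ↔
    τ ∈ GK k t ∧ ∀ c : Ideal (OO k t), Psi τ (f * 3 ^ N) c → HPN f N c) ∧
  (∀ σ ∈ GK k t, ∀ τ ∈ (Mn k t f N).fixingSubgroup, σ * τ * σ⁻¹ ∈ (Mn k t f N).fixingSubgroup) ∧
  (∀ σ ∈ GK k t, ∀ x ∈ Mn k t f N, σ x ∈ Mn k t f N) ∧
  (∀ τ ∈ (Mn k t f N).fixingSubgroup, ∀ M : ℕ, 0 < M → ∃ a : OO k t, HN f N a ∧
    Psi τ (f * 3 ^ N * M) (sp a)) ∧
  ∀ σ ∈ GK k t, ∀ τ ∈ (Mn k t f N).fixingSubgroup, ∀ (n : ℕ) (a : OO k t), 0 < n → 15 ∣ n →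
    Psi τ n (sp a) → Psi (σ * τ * σ⁻¹) n (sp a)

/-- (Module `In`) **Inertia at the primes not above `3`**: up to a unit of `O` (which is in `H_N` if `δ` is a multiple of `f 3 ^ N`) the
elements are `1` modulo every ideal which is not above the prime. If `a = 1` modulo `3` this is `DS.S_E4l`. Otherwise `3` is ramified,
`a ^ 3 = 1` modulo `3`; `S_E4l` for `ι ^ 3`: `a ^ 3 = 1` modulo `l'`, `l'` a large prime number with `(3 D/l') = - 1` if `D ≠ 3`; `S_E6`: `Nm a = 1` modulo `l'`; so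
`e' a = 1` modulo `l'` with a unit `e'`, and `S_E4l` with `p = l'`. -/
def S_hIn : Prop := ∀ (k t : ℕ) [Nsp k t] (f N : ℕ), Fok f → 1 ≤ N → ∀ P : Ideal ZZ, Npr P →
  ¬ MP P 3 → ∀ ι ∈ P.inertia Gal(Om/ℚ), ι ∈ (Mn k t f N).fixingSubgroup →
  ∀ (M : ℕ) (a : OO k t) (δ : Ideal (OO k t)), 0 < M → HN f N a → Psi ι (f * 3 ^ N * M) (sp a) →
    δ ≠ ⊥ → sp ((f * 3 ^ N * M : ℕ) : OO k t) ≤ δ → ¬ Abv P δ →
    ∃ e : OO k t, Nm e = 1 ∧ e * a - 1 ∈ δ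

/-! ## The unit `w` -/

/-- (Module `Eps`) **Galois action on `ε_i`.** -/
def S_hEps : Prop := ∀ (k t : ℕ) [Nsp k t] (f N : ℕ) (m : Ideal (OO k t)) (T : Finset (OO k t))
  (b : Ideal (OO k t)) (l : ℕ) (la : OO k t) (r : ZMod l), Dat f N m T b l la r →
  ∀ (τ : Gal(Om/ℚ)) (a : OO k t), Psi τ (f * 3 ^ N * (l * NI m)) (sp a) →
    HN f N a → ∀ i : ZMod 3, τ (epq f N m T b l la i) = epq f N m T b l la (i + lg l (rd r a))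

/-- (Module `Uni`) **Units.** -/
def S_hUni : Prop := ∀ (k t : ℕ) [Nsp k t] (f N : ℕ) (m : Ideal (OO k t)) (T : Finset (OO k t))
  (b : Ideal (OO k t)) (l : ℕ) (la : OO k t) (r : ZMod l), Dat f N m T b l la r →
  (∀ h ∈ T, Gd m b (Tz f N h) ∧ Gd m b (Tz f N (la * h)) ∧
    (∀ j : ℕ, Gd m b (Tz f N h + pL la j)) ∧
    Tz f N h ∉ Lam (sp la * m * b)) ∧
  ∀ Q : Ideal ZZ, Npr Q →
    (∀ i : ZMod 3, UP Q (epq f N m T b l la i)) ∧ UP Q (uN f N m T b) ∧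
    ∀ h ∈ T, UP Q (Theta m b (Tz f N h)) ∧
      UP Q (Theta m b (Tz f N (la * h))) ∧
      ∀ j : ℕ, UP Q (Theta m b (Tz f N h + pL la j))

/-- (Module `Cst`) **The constant `C` of the distribution relation for `(λ)`.** -/
def S_hCst : Prop := ∀ (k t : ℕ) [Nsp k t] (f N : ℕ) (m : Ideal (OO k t)) (T : Finset (OO k t))
  (b : Ideal (OO k t)) (l : ℕ) (la : OO k t) (r : ZMod l), Dat f N m T b l la r →
  ∃ C : Om, C ≠ 0 ∧ (∀ h ∈ T, ∏ j ∈ Finset.range l, Theta m b (Tz f N h + pL la j) =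
      C * Theta m b (Tz f N (la * h))) ∧
    (∀ Q : Ideal ZZ, Npr Q → UP Q C) ∧ (∀ τ ∈ (Mn k t f N).fixingSubgroup, τ C = C) ∧
    ∀ P : Ideal ZZ, Npr P → MP P (toO la) → MP P (C - 1)

/-- (Module `Nrm`) **The norm.** -/
def S_hNrm : Prop := ∀ (k t : ℕ) [Nsp k t] (f N : ℕ) (m : Ideal (OO k t)) (T : Finset (OO k t))
  (b : Ideal (OO k t)) (l : ℕ) (la : OO k t) (r : ZMod l), Dat f N m T b l la r → ∀ C : Om,
    (∀ h ∈ T, ∏ j ∈ Finset.range l, Theta m b (Tz f N h + pL la j) =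
      C * Theta m b (Tz f N (la * h))) →
    epq f N m T b l la 0 * epq f N m T b l la 1 * epq f N m T b l la 2 = C ^ T.card

/-- (Module `Cng`) **The congruence for `ε_0`.** -/
def S_hCng : Prop := ∀ (k t : ℕ) [Nsp k t] (f N : ℕ) (m : Ideal (OO k t)) (T : Finset (OO k t))
  (b : Ideal (OO k t)) (l : ℕ) (la : OO k t) (r : ZMod l), Dat f N m T b l la r →
    ∀ P : Ideal ZZ, Npr P → MP P (toO la) →
      MP P (epq f N m T b l la 0 - uN f N m T b ^ ((l - 1) / 3))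

/-! ## The homomorphism `h` -/

/-- (Module `Hom`) **The cubic character.** -/
def S_hHom : Prop := ∀ (k t : ℕ) [Nsp k t] (f N : ℕ) (l : ℕ) (la : OO k t) (r : ZMod l), 1 ≤ N →
  DatL f l la r → ∃ h ∈ VV 3 ∅ (Mn k t f N).fixingSubgroup, IsH k t f N l r h

/-- (Module `Unr`) **`h` is unramified outside `3 λ`.** -/
def S_hUnr : Prop := ∀ (k t : ℕ) [Nsp k t] (f N : ℕ) (l : ℕ) (la : OO k t) (r : ZMod l), 1 ≤ N →
  DatL f l la r → ∀ h : Gal(Om/ℚ) → ZMod 3, IsH k t f N l r h →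
  ∀ P : Ideal ZZ, Npr P → ¬ MP P 3 → ¬ MP P (toO la) →
    ∀ ι ∈ P.inertia Gal(Om/ℚ), ι ∈ (Mn k t f N).fixingSubgroup → h ι = 0

/-- (Module `Inr`) **`F(λ^(1/3))/F` is ramified over `λ`.** -/
def S_hInr : Prop := ∀ (k t : ℕ) [Nsp k t] (f N : ℕ) (l : ℕ) (la : OO k t) (r : ZMod l), 1 ≤ N →
  DatL f l la r → ∀ [NumberField (Mn k t f N)],
  (∀ v : HeightOneSpectrum (𝓞 (Mn k t f N)), (l : 𝓞 (Mn k t f N)) ∈ v.asIdeal →
    vl (Mn k t f N) v (l : Mn k t f N) = 1) →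
  ∀ P : Ideal ZZ, Npr P → MP P (toO la) → ∀ β : Om, β ^ 3 = toO la →
    ∃ ι ∈ P.inertia Gal(Om/ℚ), ι ∈ (Mn k t f N).fixingSubgroup ∧ ι β ≠ β

/-- (Module `Ram`) **`h` is ramified over `λ`.** -/
def S_hRam : Prop := ∀ (k t : ℕ) [Nsp k t] (f N : ℕ) (l : ℕ) (la : OO k t) (r : ZMod l), 1 ≤ N →
  DatL f l la r → ∀ h : Gal(Om/ℚ) → ZMod 3, IsH k t f N l r h →
  ∀ P : Ideal ZZ, Npr P → MP P (toO la) → ∀ β : Om, β ^ 3 = toO la →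
    ∀ ι ∈ P.inertia Gal(Om/ℚ), ι ∈ (Mn k t f N).fixingSubgroup → ι β ≠ β → h ι ≠ 0

/-! ## Result -/

/-- (Module `Res`) **Result.** -/
def S_hRes : Prop := ∀ (k t : ℕ) [Nsp k t] (f N : ℕ) (m : Ideal (OO k t)) (T : Finset (OO k t))
  (b : Ideal (OO k t)), FM f m → 2 ≤ N → IsRep f N T → b ≠ ⊥ → PrI b (3 * f) →
  ∃ B : ℕ, 0 < B ∧
  ∀ (l : ℕ), l.Prime → l % 3 = 1 → l.Coprime B →
  ∀ Q : Ideal ZZ, Npr Q → (l : ZZ) ∈ Q →
  ∀ φ ∈ (Mn k t f N).fixingSubgroup, (∀ x : ZZ, φ • x - x ^ l ∈ Q) →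
  ∃ h ∈ VV 3 ∅ (Mn k t f N).fixingSubgroup, ∃ w : Om, h ≠ 0 ∧
    (∀ τ ∈ (Mn k t f N).fixingSubgroup, h τ = 0 → τ w = w) ∧
    (∀ τ ∈ (Mn k t f N).fixingSubgroup, h τ = 1 → ∏ i ∈ Finset.range 3, (τ ^ i) w = 1) ∧
    (∀ P : Ideal ZZ, Npr P → UP P w) ∧
    (∀ σ ∈ GK k t, ∀ τ ∈ (Mn k t f N).fixingSubgroup, h (σ * τ * σ⁻¹) = h τ) ∧
    (∀ P : Ideal ZZ, Npr P → ¬ MP P 3 → (∀ σ ∈ GK k t, P ≠ σ • Q) →
      ∀ ι ∈ P.inertia Gal(Om/ℚ), ι ∈ (Mn k t f N).fixingSubgroup → h ι = 0) ∧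
    (∃ ι ∈ Q.inertia Gal(Om/ℚ), ι ∈ (Mn k t f N).fixingSubgroup ∧ h ι ≠ 0) ∧
    ∀ σ ∈ GK k t, MP (σ • Q) (w - uN f N m T b ^ ((l - 1) / 3))

/-- (Module `KK`) **The element `k`.** -/
def S_hKK : Prop := ∀ (k t : ℕ) [Nsp k t] (f N : ℕ) (m : Ideal (OO k t)) (T : Finset (OO k t))
  (b : Ideal (OO k t)), FM f m → 2 ≤ N → IsRep f N T → b ≠ ⊥ → PrI b (3 * f) →
  ∀ [NumberField (Mn k t f N)] (Sg : Finset Gal(Om/ℚ)), (∀ s ∈ Sg, s ∈ GK k t) →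
    (∀ τ ∈ GK k t, ∃ s ∈ Sg, s⁻¹ * τ ∈ (Mn k t f N).fixingSubgroup) →
    ∃ M : ℕ, M ≠ 0 ∧ Thnp 3 (Mn k t f N) Sg (DT.zet 3) (uN f N m T b) M

/-- (Module `Asm`) **Theorem H**. -/
def S_hAsm : Prop := S_H

end Pool.Agent.DM.H3
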